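import Pool.Agent.Lib.MP_d9d638_lc.KS.B.W1

/-!
# KS, module B.CHm: the continuum hypothesis
-/

set_option autoImplicit false

namespace Pool.Agent.KSt

open Pool.Agent.MPa4e7db Pool.Agent.Lib.SymModel Pool.Agent.StarRoth.BV

universe u

section

variable {P : Type u} [Preorder P] {p : P} {x y t : BName (RO P)}

open Classical in
/-- The canonical name of a set of natural numbers. -/
noncomputable def realN (P : Type u) [Preorder P] (X : Set ℕ) : BName (RO P) :=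
  smN (natN : ℕ → BName (RO P)) (fun n => if n ∈ X then ⊤ else ⊥)

theorem mem_realN {X : Set ℕ} {n : ℕ} : p ∈ memB (natN n) (realN P X) ↔ n ∈ X := by
  classical
  constructor
  · intro h
    obtain ⟨r, hr, m, h1, h2⟩ := Fr.sm_ex h
    have := Fr.nat_inj h2
    subst this
    by_contra hn
    rw [if_neg hn] at h1
    exact RO.notMem_bot _ h1
  · intro h
    refine Fr.sm_mk n ?_ (Fr.refl _ _)
    rw [if_pos h]
    exact RO.mem_top p

theorem realN_inj {X Y : Set ℕ} (h : p ∈ eqB (realN P X) (realN P Y)) : X = Y := by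
  ext n
  rw [← mem_realN (p := p), ← mem_realN (p := p)]
  exact ⟨fun h1 => Fr.mem_right h h1, fun h1 => Fr.mem_right (Fr.symm h) h1⟩

theorem realN_sub (X : Set ℕ) : p ∈ subB (realN P X) omegaN := by
  refine Fr.sub_iff.2 fun z q hq hz => Fr.dense fun r hr => ?_
  obtain ⟨s, hs, n, _, h⟩ := Fr.sm_ex (Fr.down hz hr)
  exact ⟨s, hs, Fr.omega_mk n h⟩

/-- There are no new sets of natural numbers. -/
theorem no_new (H : Clo P) {x : BName (RO P)} {p : P} (hx : p ∈ subB x omegaN) :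
    ∃ q ≤ p, ∃ X : Set ℕ, q ∈ eqB x (realN P X) := by
  let D : ℕ → Set P := fun n => {r | r ∈ memB (natN n) x ∨ r ∈ (memB (natN n) x)ᶜ}
  obtain ⟨q, hq, h1⟩ := H.seq (D := D) p fun n r _ => by
    obtain ⟨s, hs, h⟩ := Fr.decide (memB (natN n) x) r
    exact ⟨s, hs, h⟩
  refine ⟨q, hq, {n | q ∈ memB (natN n) x}, Fr.ext ?_ ?_⟩
  · intro z r hr hz
    refine Fr.dense fun s hs => ?_
    obtain ⟨s1, hs1, n, hn⟩ := Fr.omega_ex (Fr.sub_mp (Fr.down hx ((hs.trans hr).trans hq))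
      (Fr.down hz hs))
    refine ⟨s1, hs1, Fr.mem_left (Fr.symm hn) (mem_realN.2 ?_)⟩
    obtain ⟨a, ha, _, hD | hD⟩ := h1 n
    · exact Fr.down hD ha
    · exact (Fr.compl_mp (Fr.down hD ((hs1.trans (hs.trans hr)).trans ha))
        (Fr.mem_left hn (Fr.down hz (hs1.trans hs)))).elim
  · intro z r hr hz
    refine Fr.dense fun s hs => ?_
    obtain ⟨s1, hs1, n, hn, h⟩ := Fr.sm_ex (Fr.down hz hs)
    refine ⟨s1, hs1, Fr.mem_left (Fr.symm h) ?_⟩
    have h2 : n ∈ {n | q ∈ memB (natN n) x} := by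
      by_contra hne
      rw [if_neg hne] at hn
      exact RO.notMem_bot _ hn
    exact Fr.down h2 (hs1.trans (hs.trans hr))

end

variable {P : Type u} [Preorder P]

/-- CH: from a name `g` of a function from `ω₁` onto the sets of natural numbers. -/
theorem FCH_holds (H : Clo P) (hcol : ∃ g : Om → Set ℕ → RO P, (∀ η i j, ∀ p, p ∈ g η i → p ∈ g η j →
    i = j) ∧ (∀ i, ∀ p, ∃ p' ≤ p, ∃ η, p' ∈ g η i)) (p : P) :
    FCH p omegaN (kapN (RO P) Om) := by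
  obtain ⟨g, hg1, hg2⟩ := hcol
  intro c q hq hc
  let A : Set ℕ × Om → RO P := fun i => g i.2 i.1 ⊓ ⨅ κ : {κ : Om // κ < i.2}, (g κ.1 i.1)ᶜ
  have hA : ∀ i : Set ℕ × Om, ∀ r, r ∈ A i ↔ r ∈ g i.2 i.1 ∧ ∀ κ < i.2, r ∈ (g κ i.1)ᶜ := by
    intro i r
    show r ∈ g i.2 i.1 ⊓ ⨅ κ : {κ : Om // κ < i.2}, (g κ.1 i.1)ᶜ ↔ _
    rw [RO.mem_inf, RO.mem_iInf]
    exact ⟨fun h => ⟨h.1, fun κ hκ => h.2 ⟨κ, hκ⟩⟩, fun h => ⟨h.1, fun κ => h.2 κ.1 κ.2⟩⟩
  refine ⟨q, le_rfl, smN (fun i : Set ℕ × Om => opair (realN P i.1) (ordN (RO P) i.2)) A,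
    Fr.inj_sm ?_ ?_ ?_ ?_ ?_⟩
  · intro i r hr _
    exact (hc _ r hr).2 (realN_sub _)
  · intro x r hr hx
    obtain ⟨s, hs, X, hX⟩ := no_new H ((hc x r hr).1 hx)
    obtain ⟨s1, hs1, η, h1, h2⟩ := least_om (A := fun η => g η X) (hg2 X s)
    exact ⟨s1, hs1.trans hs, (X, η), (hA (X, η) s1).2 ⟨h1, h2⟩, Fr.down hX hs1⟩
  · rintro ⟨X, η⟩ ⟨X', η'⟩ r hr h1 h2 h3
    have h4 : X = X' := realN_inj h3
    subst h4
    have h5 : η = η' := by
      have ha := (hA _ r).1 h1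
      have hb := (hA _ r).1 h2
      rcases lt_trichotomy η η' with h | h | h
      · exact (Fr.compl_mp (hb.2 η h) ha.1).elim
      · exact h
      · exact (Fr.compl_mp (ha.2 η' h) hb.1).elim
    rw [h5]
    exact Fr.refl _ _
  · intro i r hr _
    exact Fr.kap_mk i.2 (Fr.refl _ _)
  · rintro ⟨X, η⟩ ⟨X', η'⟩ r hr h1 h2 h3
    have h4 : η = η' := Fr.ord_inj h3
    subst h4
    have h5 : X = X' := hg1 η X X' r ((hA _ r).1 h1).1 ((hA _ r).1 h2).1
    rw [h5]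
    exact Fr.refl _ _

end Pool.Agent.KSt
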