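import Pool.Agent.Lib.MP_d9d638_lc.KS.B.Br

/-!
# KS, module B.KurF: a Kurepa tree has many branches in the sense of `Kur`
-/

set_option autoImplicit false

namespace Pool.Agent.KSt

open Pool.Agent.MPa4e7db Pool.Agent.Lib.SymModel Pool.Agent.StarRoth.BV

variable {P : Type 1} [Preorder P] {q : P} {T L h : BName (RO P)} {e : Om → ℕ → BName (RO P)}

/-- Every small nonempty type is the range of a name of a function on `ω₁`. -/
def Col (P : Type 1) [Preorder P] : Prop :=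
  ∀ (I : Type) [Nonempty I], ∃ g : Om → I → RO P, (∀ η, ∀ p, ∃ p' ≤ p, ∃ i, p' ∈ g η i) ∧
    (∀ η i j, ∀ p, p ∈ g η i → p ∈ g η j → i = j) ∧ (∀ i, ∀ p, ∃ p' ≤ p, ∃ η, p' ∈ g η i)

theorem kur_of (Hc : Col P) (H : ETree q T L h e) (HK : FKur q T L h (kapN (RO P) Om)) :
    Kur q (piN L e) := by
  intro I b r hr
  by_contra hcon
  push Not at hcon
  let b' : Option I → Om → ℕ → RO P := fun i => i.elim (fun _ _ => ⊥) b
  obtain ⟨g, hg1, hg2, hg3⟩ := Hc (Option I)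
  let f : BName (RO P) := smN (fun i : Om × Option I => opair (ordN (RO P) i.1) (BrN e (b' i.2)))
    (fun i => g i.1 i.2)
  refine HK r hr f ?_ ?_
  · refine Fr.fun_sm ?_ ?_ ?_
    · intro i s hs _
      exact Fr.kap_mk i.1 (Fr.refl _ _)
    · intro x s hs hx
      obtain ⟨s1, hs1, η, hη⟩ := Fr.kap_ex hx
      obtain ⟨s2, hs2, i, hi⟩ := hg1 η s1
      exact ⟨s2, hs2.trans hs1, (η, i), hi, Fr.down hη hs2⟩
    · rintro ⟨η, i⟩ ⟨η', i'⟩ s hs h1 h2 h3
      have h4 : η = η' := Fr.ord_inj h3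
      subst h4
      have h5 : i = i' := hg2 η i i' s h1 h2
      rw [h5]
      exact Fr.refl _ _
  · intro x s hs hx
    have hsq : s ≤ q := hs.trans hr
    obtain ⟨i, s1, hs1, hi, hsub⟩ := hcon s hs (codeN e x) (isBr_code H hsq hx)
    have hs1q : s1 ≤ q := hs1.trans hsq
    have h1 : s1 ∈ eqB x (BrN e (b i)) := Fr.trans (Fr.down (brN_code H hsq hx) hs1)
      (brN_congr ((isBr_code H hsq hx).mono hs1) hi fun γ m a ha hm => hsub a ha γ m hm)
    obtain ⟨s2, hs2, η, hη⟩ := hg3 (some i) s1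
    exact ⟨s2, hs2.trans hs1, ordN _ η, Fr.rel_sm_mk (ι := Om × Option I) (η, some i) hη
      (Fr.refl _ _) (Fr.down h1 hs2)⟩

end Pool.Agent.KSt
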