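import Pool.Agent.Lib.MP_d9d638_lc.KS.B.Br

/-!
# KS, module B.Str: a continuous map on the branches of the system gives a continuous map on the
branches of the tree
-/

set_option autoImplicit false

namespace Pool.Agent.KSt

open Pool.Agent.MPa4e7db Pool.Agent.Lib.SymModel Pool.Agent.StarRoth.BV

variable {P : Type 1} [Preorder P] {p q : P} {T L h : BName (RO P)}
  {e : Om → ℕ → BName (RO P)}

theorem IsBr.dense {π : Om → Om → ℕ → ℕ → RO P} {b : Om → ℕ → RO P}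
    (H : ∀ q ≤ p, ∃ r ≤ q, IsBr r π b) : IsBr p π b where
  nm :=
    { tot := fun γ r hr => by
        obtain ⟨s, hs, h1⟩ := H r hr
        obtain ⟨t, ht, m, hm⟩ := h1.nm.tot γ s le_rfl
        exact ⟨t, ht.trans hs, m, hm⟩
      uni := fun γ m m' r hr h2 h3 => by
        obtain ⟨s, hs, h1⟩ := H r hr
        exact h1.nm.uni γ m m' s le_rfl (Fr.down h2 hs) (Fr.down h3 hs) }
  coh := fun γ γ' m' m hγ r hr h2 h3 => Fr.dense fun t ht => by
    obtain ⟨s, hs, h1⟩ := H t (ht.trans hr)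
    exact ⟨s, hs, h1.coh γ γ' m' m hγ s le_rfl (Fr.down h2 (hs.trans ht))
      (Fr.down h3 (hs.trans ht))⟩

/-- The value of: `b` is a branch of the system. -/
def brB (π : Om → Om → ℕ → ℕ → RO P) (b : Om → ℕ → RO P) : RO P where
  carrier := {p | IsBr p π b}
  reg p := ⟨fun h q hq => ⟨q, le_rfl, h.mono hq⟩, fun h => IsBr.dense h⟩

theorem mem_brB {π : Om → Om → ℕ → ℕ → RO P} {b : Om → ℕ → RO P} :
    p ∈ brB π b ↔ IsBr p π b := Iff.rfl

theorem fStr_of {ρ : (Om → ℕ → RO P) → Om → RO P} (H : ETree q T L h e) (hp : p ≤ q)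
    (HS : IsStr p (piN L e) ρ) : ∃ S F, FStr p S F T L h (kapN (RO P) Om) := by
  let S : BName (RO P) := BName.mk (Om → ℕ → RO P) (fun b => BrN e b) (fun b => brB (piN L e) b)
  let F : BName (RO P) := BName.mk (Om → ℕ → RO P) (fun b => opair (BrN e b) (subN (ρ b)))
    (fun b => brB (piN L e) b)
  have hS : ∀ x, ∀ r ≤ p, r ∈ memB x S ↔ FBr r x T L h (kapN (RO P) Om) := by
    intro x r hr
    constructor
    · intro h1
      refine FBr.dense fun s hs => ?_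
      obtain ⟨s1, hs1, b, hb, hx⟩ := Fr.mk_ex (Fr.down h1 hs)
      exact ⟨s1, hs1, (fBr_brN H ((hs1.trans (hs.trans hr)).trans hp) hb).congr (Fr.symm hx)⟩
    · intro h1
      exact Fr.mk_mk (codeN e x) (isBr_code H (hr.trans hp) h1) (brN_code H (hr.trans hp) h1)
  refine ⟨S, F, hS, ?_, ?_, ?_, ?_⟩
  · -- `F` is a function on `S`
    refine Fr.fun_mk ?_ ?_ ?_
    · intro b r hr hb
      exact Fr.mk_mk b hb (Fr.refl _ _)
    · intro x r hr hx
      exact Fr.mk_ex hx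
    · intro b b' r hr hb hb' heq
      have h1 := fun γ n => brN_inj H (hr.trans hp) hb hb' heq γ n
      refine subN_congr fun ξ s hs => ⟨?_, ?_⟩
      · exact HS.ext s (hs.trans hr) b b' (fun γ m a ha => h1 γ m a (ha.trans hs)) ξ
      · exact HS.ext s (hs.trans hr) b' b (fun γ m a ha => (h1 γ m a (ha.trans hs)).symm) ξ
  · intro y x r hr hyx
    refine Fr.dense fun s hs => ?_
    obtain ⟨s1, hs1, b, hb, _, hx⟩ := Fr.rel_mk_ex (Fr.down hyx hs)
    exact ⟨s1, hs1, Fr.sub_congr (Fr.symm hx) (Fr.refl _ _) (subN_sub _)⟩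
  · intro x r hr hx
    obtain ⟨s, hs, b, hb, hρ⟩ := HS.surj r hr (fun ξ => memB (ordN (RO P) ξ) x)
    refine ⟨s, hs, BrN e b, Fr.rel_mk_mk b hb (Fr.refl _ _) ?_⟩
    exact Fr.trans (Fr.down (eq_subN hx) hs) (Fr.symm (subN_congr hρ))
  · intro y x α r hr hyx hα
    obtain ⟨r1, hr1, b, hb, hy, hx⟩ := Fr.rel_mk_ex hyx
    obtain ⟨r2, hr2, a, ha⟩ := Fr.kap_ex (Fr.down hα hr1)
    have hr2' : r2 ≤ p := (hr2.trans hr1).trans hr
    obtain ⟨r3, hr3, γ, hγ⟩ := HS.cont r2 hr2' b (IsBr.mono hb hr2) a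
    have hb3 : IsBr r3 (piN L e) b := IsBr.mono hb (hr3.trans hr2)
    obtain ⟨r4, hr4, m, hm⟩ := hb3.nm.tot γ r3 le_rfl
    have hr41 : r4 ≤ r1 := hr4.trans (hr3.trans hr2)
    have hr4' : r4 ≤ p := hr4.trans (hr3.trans hr2')
    refine ⟨r4, hr41.trans hr1, e γ m, Fr.mem_right (Fr.symm (Fr.down hy hr41)) (mem_brN hm), ?_⟩
    intro y' x' s hs hyx' ht ξ s' hs' hξ
    have hs4 : s' ≤ r4 := hs'.trans hs
    have hcompare : ∀ t ≤ s', ∃ t' ≤ t, ∃ ξ₀ < a, t' ∈ eqB ξ (ordN _ ξ₀) ∧ ∃ b', t' ∈ eqB x' (subN (ρ b')) ∧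
        (t' ∈ ρ b ξ₀ ↔ t' ∈ ρ b' ξ₀) := by
      intro t htt
      obtain ⟨t1, ht1, b', hb', hy1, hx1⟩ := Fr.rel_mk_ex (Fr.down hyx' (htt.trans hs'))
      have ht14 : t1 ≤ r4 := ht1.trans (htt.trans hs4)
      have ht1p : t1 ≤ p := ht14.trans hr4'
      obtain ⟨t2, ht2, ξ₀, hξ₀, hξ1⟩ := Fr.ord_ex (Fr.mem_right (Fr.down ha (ht14.trans
        (hr4.trans hr3))) (Fr.down hξ (ht1.trans htt)))
      have ht24 : t2 ≤ r4 := ht2.trans ht14
      have ht2p : t2 ≤ p := ht2.trans ht1p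
      have hb2 : IsBr t2 (piN L e) b := hb3.mono (ht24.trans hr4)
      have hb2' : IsBr t2 (piN L e) b' := IsBr.mono hb' ht2
      have hm2 : t2 ∈ b γ m := Fr.down hm ht24
      have hm2' : t2 ∈ b' γ m := brN_num H (ht2p.trans hp) hb2'
        (Fr.mem_right (Fr.down hy1 ht2) (Fr.down ht (ht2.trans (ht1.trans (htt.trans hs')))))
        (br_pi H (ht2p.trans hp) hb2 le_rfl hm2 hm2)
      refine ⟨t2, ht2.trans ht1, ξ₀, hξ₀, hξ1, b', Fr.down hx1 ht2, ?_⟩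
      refine hγ b' t2 (ht24.trans hr4) hb2' (fun γ' hγ' m' hm' => ?_) ξ₀ hξ₀
      exact hb2'.coh γ' γ m m' hγ'.le t2 le_rfl hm2'
        (br_pi H (ht2p.trans hp) hb2 hγ'.le hm' hm2)
    constructor
    · intro h1
      refine Fr.dense fun t htt => ?_
      obtain ⟨t', ht', ξ₀, _, h2, b', h3, h4⟩ := hcompare t htt
      refine ⟨t', ht', Fr.mem_left (Fr.symm h2) (Fr.mem_right (Fr.symm h3) (mem_subN.2
        (h4.1 (mem_subN.1 ?_))))⟩
      exact Fr.mem_right (Fr.down hx ((ht'.trans htt).trans (hs4.trans hr41)))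
        (Fr.mem_left h2 (Fr.down h1 (ht'.trans htt)))
    · intro h1
      refine Fr.dense fun t htt => ?_
      obtain ⟨t', ht', ξ₀, _, h2, b', h3, h4⟩ := hcompare t htt
      refine ⟨t', ht', Fr.mem_left (Fr.symm h2) (Fr.mem_right
        (Fr.symm (Fr.down hx ((ht'.trans htt).trans (hs4.trans hr41)))) (mem_subN.2
        (h4.2 (mem_subN.1 ?_))))⟩
      exact Fr.mem_right h3 (Fr.mem_left h2 (Fr.down h1 (ht'.trans htt)))

end Pool.Agent.KSt
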