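import Pool.Agent.Lib.MP_d9d638_lc.KS.B.KT
import Pool.Agent.Lib.MP_d9d638_lc.KS.B.Str
import Pool.Agent.Lib.MP_d9d638_lc.KS.B.KurF
import Pool.Agent.Lib.MP_d9d638_lc.KS.B.CHm

/-!
# KS, module B.AsmB: a model of ZFC in which the statement holds
-/

set_option autoImplicit false

namespace Pool.Agent.KSt

open Pool.Agent.MPa4e7db Pool.Agent.Lib.SymModel Pool.Agent.StarRoth.BV
open Pool.Agent.MP_5db68c_lc (Fml push Sat)

variable {P : Type 1} [Preorder P]

theorem Facts.clo' (h : Facts P) : Clo P := h.clo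

theorem Facts.kurOm (h : Facts P) : ∃ π : Om → Om → ℕ → ℕ → RO P, (∀ q, IsSys q π) ∧ KurOm π :=
  h.kt

/-- Every Kurepa tree name is forced to be strong. -/
theorem strong_of (H : Facts P) {q : P} {T L h : BName (RO P)}
    (hT : FTree q T L h omegaN (kapN (RO P) Om)) (hK : FKur q T L h (kapN (RO P) Om)) :
    ∀ r ≤ q, ∃ r' ≤ r, ∃ S F, FStr r' S F T L h (kapN (RO P) Om) := by
  intro r hr
  obtain ⟨e, he⟩ := exists_enumT hT
  obtain ⟨r', hr', ρ, hρ⟩ := H.main q (piN L e) (isSys_pi he) (kur_of H.col he hK) r hr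
  exact ⟨r', hr', fStr_of he (hr'.trans hr) hρ⟩

/-- The statement is forced by every condition. -/
theorem force_fSt (H : Facts P) (v : ℕ → BName (RO P)) (p : P) : p ∈ val fSt v := by
  simp only [fSt, Fc.ex, Fc.and, Fc.all, Fc.imp, Vl.omega, fTree_iff, fKurepa_iff]
  intro q _
  refine ⟨q, le_rfl, omegaN, fun q1 _ => ⟨q1, le_rfl, kapN (RO P) Om, ?_, ?_, ?_, ?_, ?_⟩⟩
  · exact Fr.top (by rw [isOmegaB_eq]; exact eqB_refl _) q1
  · exact fOmegaOne_of _ _ (fOm1 H.clo' q1)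
  · refine fCH_of _ _ (FCH_holds H.clo' ?_ q1)
    obtain ⟨g, _, hg2, hg3⟩ := H.col (Set ℕ)
    exact ⟨g, hg2, hg3⟩
  · obtain ⟨π, hπ1, hπ2⟩ := H.kurOm
    intro q2 _
    refine ⟨q2, le_rfl, tT π, fun q3 _ => ⟨q3, le_rfl, tL π, fun q4 _ =>
      ⟨q4, le_rfl, tH π, ?_, ?_⟩⟩⟩
    · exact fTree_kt hπ1 q4
    · exact fKur_kt hπ1 hπ2 q4
  · intro T L h q2 _ hTK
    exact fStrong_of _ _ (strong_of H hTK.1 hTK.2)

/-- The forcing gives a model of ZFC in which CH holds, there is a Kurepa tree, and every Kurepa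
tree is strong. -/
theorem consistency_of_facts {P : Type 1} [Preorder P] (h : Facts P) :
    ∃ (M : Type) (_ : Membership M M), ModelZFC M ∧ StIn M := by
  obtain ⟨p⟩ := h.ne
  have hB : (⊥ : RO P) ≠ ⊤ := by
    intro hbt
    have h1 : p ∈ (⊤ : RO P) := RO.mem_top p
    rw [← hbt] at h1
    exact RO.notMem_bot p h1
  obtain ⟨G⟩ := Mdl.exists_genData hB
  have h2 : ∀ v : ℕ → BName (RO P), val fSt v = ⊤ := by
    intro v
    rw [eq_top_iff]
    intro q _
    exact force_fSt h v q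
  have h3 : Nonempty G.Md := ⟨G.cls 0⟩
  obtain ⟨m⟩ := h3
  exact ⟨G.Md, inferInstance, G.modelZFC, (sat_fSt (fun _ => m)).1 (G.sat_of_top h2 _)⟩

end Pool.Agent.KSt
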