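import Pool.Agent.Lib.MP_d9d638_lc.KS.B.Sys

/-!
# KS, module B.Br: branch names and branches of the system
-/

set_option autoImplicit false

namespace Pool.Agent.KSt

open Pool.Agent.MPa4e7db Pool.Agent.Lib.SymModel Pool.Agent.StarRoth.BV

variable {P : Type 1} [Preorder P] {p q : P} {T L h x y : BName (RO P)}
  {e : Om → ℕ → BName (RO P)} {b b' : Om → ℕ → RO P}

/-- The branch of the system given by a branch name: the least number of its node of level `γ`. -/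
noncomputable def codeN (e : Om → ℕ → BName (RO P)) (x : BName (RO P)) : Om → ℕ → RO P :=
  fun γ n => memB (e γ n) x ⊓ ⨅ k : {k : ℕ // k < n}, (memB (e γ k.1) x)ᶜ

theorem mem_code {γ : Om} {n : ℕ} : p ∈ codeN e x γ n ↔
    p ∈ memB (e γ n) x ∧ ∀ k < n, p ∈ (memB (e γ k) x)ᶜ := by
  show p ∈ memB (e γ n) x ⊓ ⨅ k : {k : ℕ // k < n}, (memB (e γ k.1) x)ᶜ ↔ _
  rw [RO.mem_inf, RO.mem_iInf]
  exact ⟨fun h => ⟨h.1, fun κ hκ => h.2 ⟨κ, hκ⟩⟩, fun h => ⟨h.1, fun κ => h.2 κ.1 κ.2⟩⟩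

/-- The name of the set of the nodes `e γ n` with the values `b γ n`. -/
noncomputable def BrN (e : Om → ℕ → BName (RO P)) (b : Om → ℕ → RO P) : BName (RO P) :=
  smN (ι := Om × ℕ) (fun i => e i.1 i.2) (fun i => b i.1 i.2)

/-- The nodes of a branch are comparable according to their heights. -/
theorem br_le {a c : BName (RO P)} {γ γ' : Om} (H : ETree q T L h e) (hp : p ≤ q)
    (hx : FBr p x T L h (kapN (RO P) Om)) (ha : p ∈ memB a x) (hc : p ∈ memB c x)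
    (h1 : p ∈ relB h a (ordN _ γ)) (h2 : p ∈ relB h c (ordN _ γ')) (hγ : γ ≤ γ') :
    p ∈ leB L a c := by
  refine Fr.dense fun r hr => ?_
  obtain ⟨s, hs, h3 | h3 | h3⟩ := hx.lin a c r hr (Fr.down ha hr) (Fr.down hc hr)
  · exact ⟨s, hs, le_of_eq h3⟩
  · exact ⟨s, hs, le_of_lt h3⟩
  · exact absurd (lt_height H.tree ((hs.trans hr).trans hp) h3 (Fr.down h2 (hs.trans hr))
      (Fr.down h1 (hs.trans hr))) (not_lt.2 hγ)

theorem isBr_code (H : ETree q T L h e) (hp : p ≤ q) (hx : FBr p x T L h (kapN (RO P) Om)) :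
    IsBr p (piN L e) (codeN e x) where
  nm :=
    { tot := fun γ r hr => by
        obtain ⟨s, hs, t, ht1, ht2⟩ := hx.cof (ordN _ γ) r hr (Fr.kap_mk γ (Fr.refl _ _))
        obtain ⟨s1, hs1, n, hn⟩ := H.all t γ s ((hs.trans hr).trans hp) ht2
        obtain ⟨s2, hs2, m, h2, h3⟩ := least_nat (q := r) (A := fun n => memB (e γ n) x)
          ⟨s1, hs1.trans hs, n, Fr.mem_left hn (Fr.down ht1 hs1)⟩
        exact ⟨s2, hs2, m, mem_code.2 ⟨h2, h3⟩⟩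
      uni := fun γ m n r hr h1 h2 => by
        obtain ⟨h3, h4⟩ := mem_code.1 h1
        obtain ⟨h5, h6⟩ := mem_code.1 h2
        rcases lt_trichotomy m n with h | h | h
        · exact (Fr.compl_mp (h6 m h) h3).elim
        · exact h
        · exact (Fr.compl_mp (h4 n h) h5).elim }
  coh := fun γ γ' m' m hγ r hr h1 h2 => by
    obtain ⟨h3, h4⟩ := mem_code.1 h1
    obtain ⟨h5, h6⟩ := mem_pi.1 h2
    have h7 : r ∈ memB (e γ m) x := by
      refine Fr.dense fun s hs => ?_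
      obtain ⟨t, ht, h8 | h8⟩ := le_ex (Fr.down h5 hs)
      · exact ⟨t, ht, Fr.mem_left (Fr.symm h8) (Fr.down h3 (ht.trans hs))⟩
      · exact ⟨t, ht, hx.dc _ _ t ((ht.trans hs).trans hr) (Fr.down h3 (ht.trans hs)) h8⟩
    refine mem_code.2 ⟨h7, fun k hk => RO.mem_compl.2 fun s hs h8 => ?_⟩
    refine Fr.compl_mp (Fr.down (h6 k hk) hs) ?_
    exact br_le H ((hs.trans hr).trans hp) (hx.mono (hs.trans hr)) h8 (Fr.down h3 hs)
      (Fr.down (H.lev γ k) ((hs.trans hr).trans hp))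
      (Fr.down (H.lev γ' m') ((hs.trans hr).trans hp)) hγ

theorem IsBr.mono {r : P} {π : Om → Om → ℕ → ℕ → RO P} (Hb : IsBr p π b) (hr : r ≤ p) :
    IsBr r π b where
  nm :=
    { tot := fun γ s hs => Hb.nm.tot γ s (hs.trans hr)
      uni := fun γ m n s hs => Hb.nm.uni γ m n s (hs.trans hr) }
  coh := fun γ γ' m' m hγ s hs => Hb.coh γ γ' m' m hγ s (hs.trans hr)

theorem IsBr.congr {π : Om → Om → ℕ → ℕ → RO P} (Hb : IsBr p π b)
    (h1 : ∀ γ m, ∀ r ≤ p, r ∈ b γ m ↔ r ∈ b' γ m) : IsBr p π b' where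
  nm :=
    { tot := fun γ s hs => by
        obtain ⟨r, hr, m, hm⟩ := Hb.nm.tot γ s hs
        exact ⟨r, hr, m, (h1 γ m r (hr.trans hs)).1 hm⟩
      uni := fun γ m n s hs ha hb => Hb.nm.uni γ m n s hs ((h1 γ m s hs).2 ha)
        ((h1 γ n s hs).2 hb) }
  coh := fun γ γ' m' m hγ s hs ha hb => (h1 γ m s hs).1
    (Hb.coh γ γ' m' m hγ s hs ((h1 γ' m' s hs).2 ha) hb)

/-- The numbers of a branch cohere. -/
theorem br_pi (H : ETree q T L h e) (hp : p ≤ q) (Hb : IsBr p (piN L e) b) {γ γ' : Om} {m m' : ℕ}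
    (hγ : γ ≤ γ') (h1 : p ∈ b γ m) (h2 : p ∈ b γ' m') : p ∈ piN L e γ γ' m' m := by
  refine Fr.dense fun r hr => ?_
  obtain ⟨s, hs, n, hn⟩ := pi_tot H m' hγ (hr.trans hp)
  have h3 := Hb.coh γ γ' m' n hγ s (hs.trans hr) (Fr.down h2 (hs.trans hr)) hn
  have h4 := Hb.nm.uni γ n m s (hs.trans hr) h3 (Fr.down h1 (hs.trans hr))
  subst h4
  exact ⟨s, hs, hn⟩

/-- The nodes of level `γ` of the set `BrN e b`. -/
theorem brN_lev (H : ETree q T L h e) (hp : p ≤ q) {t : BName (RO P)} {γ : Om}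
    (ht : p ∈ memB t (BrN e b)) (hh : p ∈ relB h t (ordN _ γ)) :
    ∃ r ≤ p, ∃ m, r ∈ b γ m ∧ r ∈ eqB t (e γ m) := by
  obtain ⟨r, hr, ⟨γ', m⟩, h1, h2⟩ := Fr.sm_ex ht
  have h3 : γ = γ' := height_uni H.tree (hr.trans hp) (Fr.rel_left h2 (Fr.down hh hr))
    (Fr.down (H.lev γ' m) (hr.trans hp))
  subst h3
  exact ⟨r, hr, m, h1, h2⟩

theorem mem_brN {γ : Om} {m : ℕ} (h1 : p ∈ b γ m) : p ∈ memB (e γ m) (BrN e b) :=
  Fr.sm_mk (ι := Om × ℕ) (γ, m) h1 (Fr.refl _ _)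

theorem fBr_brN (H : ETree q T L h e) (hp : p ≤ q) (Hb : IsBr p (piN L e) b) :
    FBr p (BrN e b) T L h (kapN (RO P) Om) where
  sub t r hr h1 := by
    refine Fr.dense fun s hs => ?_
    obtain ⟨s1, hs1, ⟨γ, m⟩, _, h2⟩ := Fr.sm_ex (Fr.down h1 hs)
    have h3 : s1 ∈ isFunOnB h T := (Fr.into_iff.1 (Fr.down H.tree.fn
      ((hs1.trans (hs.trans hr)).trans hp))).1
    exact ⟨s1, hs1, Fr.mem_left (Fr.symm h2) (Fr.fun_dom h3 (Fr.down (H.lev γ m)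
      ((hs1.trans (hs.trans hr)).trans hp)))⟩
  lin s t r hr h1 h2 := by
    obtain ⟨r1, hr1, ⟨γ, m⟩, h3, h4⟩ := Fr.sm_ex h1
    obtain ⟨r2, hr2, ⟨γ', m'⟩, h5, h6⟩ := Fr.sm_ex (Fr.down h2 hr1)
    have hr2' : r2 ≤ p := (hr2.trans hr1).trans hr
    rcases le_total γ γ' with hγ | hγ
    · have h7 := (mem_pi.1 (br_pi H (hr2'.trans hp) (Hb.mono hr2') hγ (Fr.down h3 hr2) h5)).1
      obtain ⟨r3, hr3, h8 | h8⟩ := le_ex (le_congr (Fr.symm (Fr.down h4 hr2)) (Fr.symm h6) h7)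
      · exact ⟨r3, hr3.trans (hr2.trans hr1), Or.inl h8⟩
      · exact ⟨r3, hr3.trans (hr2.trans hr1), Or.inr (Or.inl h8)⟩
    · have h7 := (mem_pi.1 (br_pi H (hr2'.trans hp) (Hb.mono hr2') hγ h5 (Fr.down h3 hr2))).1
      obtain ⟨r3, hr3, h8 | h8⟩ := le_ex (le_congr (Fr.symm h6) (Fr.symm (Fr.down h4 hr2)) h7)
      · exact ⟨r3, hr3.trans (hr2.trans hr1), Or.inl (Fr.symm h8)⟩
      · exact ⟨r3, hr3.trans (hr2.trans hr1), Or.inr (Or.inr h8)⟩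
  dc s t r hr h1 h2 := by
    refine Fr.dense fun r0 hr0 => ?_
    obtain ⟨r1, hr1, ⟨γ', m'⟩, h3, h4⟩ := Fr.sm_ex (Fr.down h1 hr0)
    have hr1' : r1 ≤ p := (hr1.trans hr0).trans hr
    have h5 : r1 ∈ relB L s (e γ' m') := Fr.rel_right h4 (Fr.down h2 (hr1.trans hr0))
    -- the height of `s`
    have h6 : r1 ∈ isFunIntoB h T (kapN (RO P) Om) := Fr.down H.tree.fn (hr1'.trans hp)
    obtain ⟨r2, hr2, α, hα⟩ := Fr.iSup_ex (Fr.fun_total (Fr.into_iff.1 h6).1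
      (H.tree.nodes _ _ r1 (hr1'.trans hp) h5).1)
    obtain ⟨r3, hr3, γ, hγ⟩ := Fr.kap_ex (Fr.into_mem (Fr.down h6 hr2) hα)
    have hr3' : r3 ≤ p := (hr3.trans hr2).trans hr1'
    have h7 : r3 ∈ relB h s (ordN _ γ) := Fr.rel_right hγ (Fr.down hα hr3)
    have h8 : γ < γ' := lt_height H.tree (hr3'.trans hp) (Fr.down h5 (hr3.trans hr2)) h7
      (Fr.down (H.lev γ' m') (hr3'.trans hp))
    obtain ⟨r4, hr4, m, h9⟩ := pi_tot H m' h8.le (hr3'.trans hp)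
    have hr4' : r4 ≤ p := hr4.trans hr3'
    have h10 := Hb.coh γ γ' m' m h8.le r4 hr4' (Fr.down h3 (hr4.trans (hr3.trans hr2))) h9
    have h11 : r4 ∈ leB L s (e γ m) := le_cmp H.tree (hr4'.trans hp)
      (le_of_lt (Fr.down h5 (hr4.trans (hr3.trans hr2)))) (mem_pi.1 h9).1
      (Fr.down h7 hr4) (Fr.down (H.lev γ m) (hr4'.trans hp)) le_rfl
    have h12 := le_same H.tree (hr4'.trans hp) h11 (Fr.down h7 hr4)
      (Fr.down (H.lev γ m) (hr4'.trans hp))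
    exact ⟨r4, hr4.trans (hr3.trans (hr2.trans hr1)), Fr.mem_left (Fr.symm h12) (mem_brN h10)⟩
  cof α r hr h1 := by
    obtain ⟨s, hs, γ, hγ⟩ := Fr.kap_ex h1
    obtain ⟨s1, hs1, m, hm⟩ := Hb.nm.tot γ s (hs.trans hr)
    exact ⟨s1, hs1.trans hs, e γ m, mem_brN hm, Fr.rel_right (Fr.symm (Fr.down hγ hs1))
      (Fr.down (H.lev γ m) ((hs1.trans (hs.trans hr)).trans hp))⟩

/-- A branch name is the set of the nodes given by its code. -/
theorem brN_code (H : ETree q T L h e) (hp : p ≤ q) (hx : FBr p x T L h (kapN (RO P) Om)) :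
    p ∈ eqB x (BrN e (codeN e x)) := by
  refine Fr.ext ?_ ?_
  · intro t r hr ht
    refine Fr.dense fun s hs => ?_
    have hs' : s ≤ p := hs.trans hr
    have h6 : s ∈ isFunIntoB h T (kapN (RO P) Om) := Fr.down H.tree.fn (hs'.trans hp)
    obtain ⟨s1, hs1, α, hα⟩ := Fr.iSup_ex (Fr.fun_total (Fr.into_iff.1 h6).1
      (hx.sub t s hs' (Fr.down ht hs)))
    obtain ⟨s2, hs2, γ, hγ⟩ := Fr.kap_ex (Fr.into_mem (Fr.down h6 hs1) hα)
    have h7 : s2 ∈ relB h t (ordN _ γ) := Fr.rel_right hγ (Fr.down hα hs2)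
    have hs2' : s2 ≤ p := (hs2.trans hs1).trans hs'
    obtain ⟨s3, hs3, n, hn⟩ := (isBr_code H hp hx).nm.tot γ s2 hs2'
    have hs3' : s3 ≤ p := hs3.trans hs2'
    have h8 := (mem_code.1 hn).1
    have h9 := le_same H.tree (hs3'.trans hp) (br_le H (hs3'.trans hp) (hx.mono hs3')
      (Fr.down ht ((hs3.trans (hs2.trans hs1)).trans hs)) h8 (Fr.down h7 hs3)
      (Fr.down (H.lev γ n) (hs3'.trans hp)) le_rfl) (Fr.down h7 hs3)
      (Fr.down (H.lev γ n) (hs3'.trans hp))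
    exact ⟨s3, hs3.trans (hs2.trans hs1), Fr.mem_left (Fr.symm h9) (mem_brN hn)⟩
  · intro t r hr ht
    refine Fr.dense fun s hs => ?_
    obtain ⟨s1, hs1, ⟨γ, m⟩, h1, h2⟩ := Fr.sm_ex (Fr.down ht hs)
    exact ⟨s1, hs1, Fr.mem_left (Fr.symm h2) (mem_code.1 h1).1⟩

/-- A node with a number `m` on the branch `b`: if `e γ m'` is in `BrN e b` and `m'` is a least
number of a node, then `b γ m'`. -/
theorem brN_num (H : ETree q T L h e) (hp : p ≤ q) (Hb : IsBr p (piN L e) b) {γ : Om} {m : ℕ}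
    (h1 : p ∈ memB (e γ m) (BrN e b)) (h2 : p ∈ piN L e γ γ m m) : p ∈ b γ m := by
  refine Fr.dense fun r hr => ?_
  obtain ⟨s, hs, n, hn, he⟩ := brN_lev H (hr.trans hp) (Fr.down h1 hr)
    (Fr.down (H.lev γ m) (hr.trans hp))
  have hs' : s ≤ p := hs.trans hr
  have h3 := br_pi H (hs'.trans hp) (Hb.mono hs') le_rfl hn hn
  obtain ⟨_, h4⟩ := mem_pi.1 h3
  obtain ⟨_, h5⟩ := mem_pi.1 (Fr.down h2 hs')
  rcases lt_trichotomy m n with h | h | h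
  · exact (Fr.compl_mp (h4 m h) (le_of_eq he)).elim
  · subst h
    exact ⟨s, hs, hn⟩
  · exact (Fr.compl_mp (h5 n h) (le_of_eq (Fr.symm he))).elim

theorem code_brN (H : ETree q T L h e) (hp : p ≤ q) (Hb : IsBr p (piN L e) b) (γ : Om) (n : ℕ) :
    ∀ r ≤ p, r ∈ codeN e (BrN e b) γ n ↔ r ∈ b γ n := by
  intro r hr
  have Hc := isBr_code H (hr.trans hp) (fBr_brN H (hr.trans hp) (Hb.mono hr))
  constructor
  · intro h1
    exact brN_num H (hr.trans hp) (Hb.mono hr) (mem_code.1 h1).1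
      (br_pi H (hr.trans hp) Hc le_rfl h1 h1)
  · intro h1
    refine Fr.dense fun s hs => ?_
    obtain ⟨s1, hs1, m, hm⟩ := Hc.nm.tot γ s hs
    have hs1' : s1 ≤ r := hs1.trans hs
    have h2 := brN_num H ((hs1'.trans hr).trans hp) (Hb.mono (hs1'.trans hr)) (mem_code.1 hm).1
      (br_pi H ((hs1'.trans hr).trans hp) (Hc.mono hs1') le_rfl hm hm)
    have h3 := Hb.nm.uni γ m n s1 (hs1'.trans hr) h2 (Fr.down h1 hs1')
    subst h3
    exact ⟨s1, hs1, hm⟩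

theorem code_congr (h1 : p ∈ eqB x y) (γ : Om) (n : ℕ) :
    ∀ r ≤ p, r ∈ codeN e x γ n ↔ r ∈ codeN e y γ n := by
  have key : ∀ x y : BName (RO P), p ∈ eqB x y → ∀ r ≤ p, r ∈ codeN e x γ n →
      r ∈ codeN e y γ n := by
    intro x y h1 r hr h2
    obtain ⟨h3, h4⟩ := mem_code.1 h2
    refine mem_code.2 ⟨Fr.mem_right (Fr.down h1 hr) h3, fun k hk => RO.mem_compl.2
      fun s hs h5 => ?_⟩
    exact Fr.compl_mp (Fr.down (h4 k hk) hs) (Fr.mem_right (Fr.symm (Fr.down h1 (hs.trans hr))) h5)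
  exact fun r hr => ⟨key x y h1 r hr, key y x (Fr.symm h1) r hr⟩

/-- Branches with equal sets of nodes are equal. -/
theorem brN_inj (H : ETree q T L h e) (hp : p ≤ q) (Hb : IsBr p (piN L e) b)
    (Hb' : IsBr p (piN L e) b') (h1 : p ∈ eqB (BrN e b) (BrN e b')) (γ : Om) (n : ℕ) :
    ∀ r ≤ p, r ∈ b γ n ↔ r ∈ b' γ n := by
  intro r hr
  rw [← code_brN H hp Hb γ n r hr, ← code_brN H hp Hb' γ n r hr]
  exact code_congr h1 γ n r hr

/-- If `b ⊆ b'` then the sets of nodes are equal. -/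
theorem brN_congr (Hb : IsBr p (piN L e) b) (Hb' : IsBr p (piN L e) b')
    (h1 : ∀ γ m, ∀ r ≤ p, r ∈ b γ m → r ∈ b' γ m) : p ∈ eqB (BrN e b) (BrN e b') := by
  refine Fr.ext ?_ ?_
  · intro t r hr ht
    refine Fr.dense fun s hs => ?_
    obtain ⟨s1, hs1, ⟨γ, m⟩, h2, h3⟩ := Fr.sm_ex (Fr.down ht hs)
    exact ⟨s1, hs1, Fr.mem_left (Fr.symm h3) (mem_brN (h1 γ m s1 (hs1.trans (hs.trans hr)) h2))⟩
  · intro t r hr ht
    refine Fr.dense fun s hs => ?_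
    obtain ⟨s1, hs1, ⟨γ, m⟩, h2, h3⟩ := Fr.sm_ex (Fr.down ht hs)
    obtain ⟨s2, hs2, n, hn⟩ := Hb.nm.tot γ s1 (hs1.trans (hs.trans hr))
    have hs2' : s2 ≤ p := hs2.trans (hs1.trans (hs.trans hr))
    have h4 := Hb'.nm.uni γ n m s2 hs2' (h1 γ n s2 hs2' hn) (Fr.down h2 hs2)
    subst h4
    exact ⟨s2, hs2.trans hs1, Fr.mem_left (Fr.symm (Fr.down h3 hs2)) (mem_brN hn)⟩

end Pool.Agent.KSt
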