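import Pool.Agent.Lib.MP_d9d638_lc.KS.B.W1
import Pool.Agent.Lib.MP_a1c723_lc.BV.Model

/-!
# KS, module B.Enum: enumerating the levels of a tree name
-/

set_option autoImplicit false

namespace Pool.Agent.KSt

open Pool.Agent.MPa4e7db Pool.Agent.Lib.SymModel Pool.Agent.StarRoth.BV
open Pool.Agent.MP_5db68c_lc (Fml push)

universe u

variable {P : Type u} [Preorder P]

/-- Below `q`, `(T, L)` is a tree with height function `h`, and `e γ n` are names of nodes of level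
`γ`, such that all nodes of level `γ` are among them. -/
structure ETree (q : P) (T L h : BName (RO P)) (e : Om → ℕ → BName (RO P)) : Prop where
  tree : FTree q T L h omegaN (kapN (RO P) Om)
  lev : ∀ γ n, q ∈ relB h (e γ n) (ordN _ γ)
  all : ∀ t γ, ∀ r ≤ q, r ∈ relB h t (ordN _ γ) → ∃ r' ≤ r, ∃ n, r' ∈ eqB t (e γ n)

theorem mem_idx_ex {p : P} {t y : BName (RO P)} (h : p ∈ memB t y) :
    ∃ q ≤ p, ∃ i, q ∈ vlN y i ∧ q ∈ eqB t (eltN y i) := by
  rw [memB_eqN] at h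
  obtain ⟨q, hq, i, hi⟩ := Fr.iSup_ex h
  exact ⟨q, hq, i, hi.1, hi.2⟩

theorem mem_idx_mk {p : P} {t y : BName (RO P)} (i : idxN y) (h : p ∈ vlN y i)
    (h1 : p ∈ eqB t (eltN y i)) : p ∈ memB t y := by
  rw [memB_eqN]
  exact Fr.iSup_mk i ⟨h, h1⟩

/-- The level of a tree name. -/
def levN (T h α : BName (RO P)) : BName (RO P) :=
  BName.mk (idxN T) (eltN T) (fun i => vlN T i ⊓ relB h (eltN T i) α)

theorem mem_levN {p : P} {T h α t : BName (RO P)} (hh : p ∈ isFunOnB h T) :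
    p ∈ memB t (levN T h α) ↔ p ∈ relB h t α := by
  constructor
  · intro h1
    refine Fr.dense fun q hq => ?_
    obtain ⟨r, hr, i, h2, h3⟩ := Fr.mk_ex (Fr.down h1 hq)
    exact ⟨r, hr, Fr.rel_left (Fr.symm h3) h2.2⟩
  · intro h1
    refine Fr.dense fun q hq => ?_
    obtain ⟨r, hr, i, h2, h3⟩ := mem_idx_ex (Fr.fun_dom (Fr.down hh hq) (Fr.down h1 hq))
    exact ⟨r, hr, Fr.mk_mk i ⟨h2, Fr.rel_left h3 (Fr.down h1 (hr.trans hq))⟩ h3⟩

/-- The values of formulas are extensional in the last variable. -/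
theorem ext_val (φ : Fml) (v : ℕ → BName (RO P)) : Ext (fun x => val φ (push x v)) := by
  intro p x y h1 h2
  refine Mdl.val_congr φ (fun i _ => ?_) h2
  cases i with
  | zero => exact h1
  | succ i => exact le_eqB_refl _ _

/-- The maximum principle. -/
theorem full_val (φ : Fml) (v : ℕ → BName (RO P)) {p : P} (h : p ∈ ⨆ x, val φ (push x v)) :
    ∃ x, p ∈ val φ (push x v) := Fr.full (ext_val φ v) h

/-- A countable set has an injection into `ω`, by the maximum principle. -/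
theorem full_ctbl {p : P} {s w : BName (RO P)} (h : p ∈ isCtblB s w) : ∃ f, FInj p f s w := by
  obtain ⟨f, hf⟩ := full_val (fInj 0 (0 + 1) (0 + 1 + 1)) (push s (push w (fun _ => s))) (p := p)
    (by simp only [Vl.inj]; exact h)
  rw [Vl.inj] at hf
  exact ⟨f, fInj_iff.1 hf⟩

/-- The levels of a tree name can be enumerated, level by level. -/
theorem exists_enumT {q : P} {T L h : BName (RO P)}
    (H : FTree q T L h omegaN (kapN (RO P) Om)) : ∃ e, ETree q T L h e := by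
  have hh : q ∈ isFunOnB h T := (Fr.into_iff.1 H.fn).1
  have key : ∀ γ : Om, ∃ e : ℕ → BName (RO P), (∀ n, q ∈ relB h (e n) (ordN _ γ)) ∧
      ∀ t, ∀ r ≤ q, r ∈ relB h t (ordN _ γ) → ∃ r' ≤ r, ∃ n, r' ∈ eqB t (e n) := by
    intro γ
    have hγ : q ∈ memB (ordN _ γ) (kapN (RO P) Om) := Fr.kap_mk γ (Fr.refl _ _)
    obtain ⟨t₀, ht₀⟩ := Fr.full (φ := fun t => relB h t (ordN _ γ)) (p := q)
      (fun _ _ _ h1 h2 => relB_congr h1 (le_eqB_refl _ _) h2) (by
        refine Fr.dense fun r hr => ?_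
        obtain ⟨s, hs, t, ht⟩ := H.lev (ordN _ γ) r hr (Fr.down hγ hr)
        exact ⟨s, hs, Fr.iSup_mk t ht⟩)
    have hA : ∀ t, ∀ r ≤ q, r ∈ memB t (levN T h (ordN _ γ)) ↔ r ∈ relB h t (ordN _ γ) :=
      fun t r hr => mem_levN (Fr.down hh hr)
    obtain ⟨f, hf⟩ := full_ctbl (H.ctbl (ordN _ γ) q le_rfl hγ (levN T h (ordN _ γ)) hA)
    have h1 : ∀ n : ℕ, ∃ t, q ∈ relB f t (natN n) ⊔ ((⨆ s, relB f s (natN n))ᶜ ⊓ eqB t t₀) := by
      intro n
      refine Fr.full (φ := fun t => relB f t (natN n) ⊔ ((⨆ s, relB f s (natN n))ᶜ ⊓ eqB t t₀))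
        (p := q) ?_ ?_
      · intro a x y ha hx
        have hx2 : a ≤ a ⊓ (relB f x (natN n) ⊔ ((⨆ s, relB f s (natN n))ᶜ ⊓ eqB x t₀)) :=
          le_inf le_rfl hx
        refine hx2.trans ?_
        rw [inf_sup_left]
        refine sup_le_sup ?_ ?_
        · exact relB_congr (inf_le_left.trans ha) (le_eqB_refl _ _) inf_le_right
        · exact le_inf (inf_le_right.trans inf_le_left)
            (eqB.trans (eqB.symm (inf_le_left.trans ha)) (inf_le_right.trans inf_le_right))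
      · refine Fr.dense fun r _ => ?_
        obtain ⟨s, hs, h2 | h2⟩ := Fr.decide (⨆ s, relB f s (natN n)) r
        · obtain ⟨s', hs', t, ht⟩ := Fr.iSup_ex h2
          exact ⟨s', hs'.trans hs, Fr.iSup_mk t (RO.mem_sup.2 fun a ha => ⟨a, le_rfl,
            Or.inl (Fr.down ht ha)⟩)⟩
        · exact ⟨s, hs, Fr.iSup_mk t₀ (RO.mem_sup.2 fun a ha => ⟨a, le_rfl,
            Or.inr ⟨Fr.down h2 ha, Fr.refl _ _⟩⟩)⟩
    choose e he using h1
    refine ⟨e, fun n => Fr.dense fun r hr => ?_, fun t r hr ht => ?_⟩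
    · obtain ⟨s, hs, h2 | h2⟩ := RO.mem_sup.1 (he n) r hr
      · exact ⟨s, hs, (hA _ s (hs.trans hr)).1 (Fr.fun_dom (Fr.down hf.fn (hs.trans hr)) h2)⟩
      · exact ⟨s, hs, Fr.rel_left (Fr.symm h2.2) (Fr.down ht₀ (hs.trans hr))⟩
    · have ht2 := (hA t r hr).2 ht
      obtain ⟨s, hs, y, hy⟩ := Fr.iSup_ex (Fr.fun_total (Fr.down hf.fn hr) ht2)
      obtain ⟨s1, hs1, n, hn⟩ := Fr.omega_ex (hf.into _ _ s (hs.trans hr) hy)
      have h3 : s1 ∈ relB f t (natN n) := Fr.rel_right hn (Fr.down hy hs1)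
      obtain ⟨s2, hs2, h4 | h4⟩ := RO.mem_sup.1 (he n) s1 (hs1.trans (hs.trans hr))
      · exact ⟨s2, hs2.trans (hs1.trans hs), n, hf.inj _ _ _ s2
          (hs2.trans (hs1.trans (hs.trans hr))) (Fr.down h3 hs2) h4⟩
      · exact (Fr.compl_mp h4.1 (Fr.iSup_mk t (Fr.down h3 hs2))).elim
  choose e he1 he2 using key
  exact ⟨e, H, he1, fun t γ => he2 γ t⟩

end Pool.Agent.KSt
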