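import Pool.Agent.Lib.MP_a4e7db_lc.Omega
import Mathlib.SetTheory.Cardinal.Order

/-!
# KS, module B.Nm: names over a complete Boolean algebra of any universe

Mixing, the maximum principle, relations and functions (as in `MP_a1c723_lc.BV.Base`, there only
for `B : Type`), names of small families, ordinals and sets of natural numbers.
-/

set_option autoImplicit false

namespace Pool.Agent.KSt

open Pool.Agent.MPa4e7db

universe u

variable {B : Type u} [CompleteBooleanAlgebra B]

/-! ### Mixing -/

/-- The index type of a name. -/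
def idxN : BName B → Type u
  | BName.mk ι _ _ => ι

/-- The members of a name. -/
def eltN : (y : BName B) → idxN y → BName B
  | BName.mk _ x _ => x

/-- The values of a name. -/
def vlN : (y : BName B) → idxN y → B
  | BName.mk _ _ b => b

theorem memB_eqN (t y : BName B) : memB t y = ⨆ j : idxN y, vlN y j ⊓ eqB t (eltN y j) := by
  cases y with
  | mk κ y b => rfl

/-- The mixture of the names `y i` with the values `t i`. -/
def mix {ι : Type u} (t : ι → B) (y : ι → BName B) : BName B :=
  BName.mk (Σ i : ι, idxN (y i)) (fun p => eltN (y p.1) p.2) (fun p => t p.1 ⊓ vlN (y p.1) p.2)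

theorem memB_mix {ι : Type u} (t : ι → B) (y : ι → BName B) (z : BName B) :
    memB z (mix t y) = ⨆ i, t i ⊓ memB z (y i) := by
  rw [mix, memB_mk]
  apply le_antisymm
  · refine iSup_le fun p => ?_
    refine le_iSup_of_le p.1 (le_inf (inf_le_left.trans inf_le_left) ?_)
    rw [memB_eqN]
    exact le_iSup_of_le p.2 (le_inf (inf_le_left.trans inf_le_right) inf_le_right)
  · refine iSup_le fun i => ?_
    rw [memB_eqN, inf_iSup_eq]
    refine iSup_le fun j => ?_
    refine le_iSup_of_le ⟨i, j⟩ ?_
    rw [inf_assoc]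

theorem le_eqB_mix {ι : Type u} {t : ι → B} {y : ι → BName B}
    (hd : ∀ i j, i ≠ j → t i ⊓ t j = ⊥) (i : ι) : t i ≤ eqB (mix t y) (y i) := by
  apply eqB_ext
  · intro z q hq hz
    rw [memB_mix] at hz
    refine iSup_elim hz fun j r hr hrj => ?_
    by_cases h : i = j
    · subst h
      exact hrj.trans inf_le_right
    · have h1 : r ≤ t i ⊓ t j := le_inf (hr.trans hq) (hrj.trans inf_le_left)
      rw [hd i j h] at h1
      exact h1.trans bot_le
  · intro z q hq hz
    rw [memB_mix]
    exact iSup_intro i (le_inf hq hz)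

/-! ### Disjointification along a well-order -/

section

variable {ι : Type u} [LinearOrder ι] [WellFoundedLT ι]

/-- The value `b i` minus the values `b j`, `j < i`. -/
def first (b : ι → B) (i : ι) : B := b i ⊓ (⨆ j : {j : ι // j < i}, b j.1)ᶜ

omit [WellFoundedLT ι] in
theorem first_le (b : ι → B) (i : ι) : first b i ≤ b i := inf_le_left

omit [WellFoundedLT ι] in
theorem first_disj_lt (b : ι → B) {i j : ι} (h : i < j) : first b i ⊓ first b j = ⊥ := by
  rw [eq_bot_iff]
  have h1 : first b i ⊓ first b j ≤ ⨆ k : {k : ι // k < j}, b k.1 :=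
    le_iSup_of_le (⟨i, h⟩ : {k : ι // k < j}) (inf_le_left.trans (first_le b i))
  have h2 : first b i ⊓ first b j ≤ (⨆ k : {k : ι // k < j}, b k.1)ᶜ :=
    inf_le_right.trans inf_le_right
  exact compl_mp h2 h1

omit [WellFoundedLT ι] in
theorem first_disj (b : ι → B) (i j : ι) (h : i ≠ j) : first b i ⊓ first b j = ⊥ := by
  rcases lt_or_gt_of_ne h with h | h
  · exact first_disj_lt b h
  · rw [inf_comm]
    exact first_disj_lt b h

theorem le_iSup_first (b : ι → B) (i : ι) : b i ≤ ⨆ j : ι, first b j := by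
  induction i using WellFoundedLT.induction with
  | ind i ih =>
    have h1 : b i ≤ first b i ⊔ ⨆ j : {j : ι // j < i}, b j.1 := by
      rw [first, sup_inf_right, compl_sup_eq_top, inf_top_eq]
      exact le_sup_left
    refine h1.trans (sup_le (le_iSup _ i) (iSup_le fun j => ih j.1 j.2))

theorem iSup_first (b : ι → B) : (⨆ j : ι, first b j) = ⨆ j : ι, b j :=
  le_antisymm (iSup_mono fun i => first_le b i) (iSup_le fun i => le_iSup_first b i)

end

/-- The maximum principle: a supremum over all names of an extensional function is attained. -/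
theorem exists_maxB {φ : BName B → B} (hφ : Ext φ) : ∃ x : BName B, (⨆ y : BName B, φ y) ≤ φ x := by
  classical
  obtain ⟨e⟩ : Nonempty ((Cardinal.mk B).ord.ToType ≃ B) :=
    Cardinal.eq.1 (Cardinal.mk_ord_toType _)
  let b : (Cardinal.mk B).ord.ToType → B := fun i => if ∃ y, φ y = e i then e i else ⊥
  have hb : ∀ i, ∃ y, b i ≤ φ y := by
    intro i
    by_cases h : ∃ y, φ y = e i
    · obtain ⟨y, hy⟩ := h
      refine ⟨y, ?_⟩
      simp only [b]
      rw [if_pos ⟨y, hy⟩, hy]
    · refine ⟨emptyN, ?_⟩
      simp only [b]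
      rw [if_neg h]
      exact bot_le
  choose y hy using hb
  refine ⟨mix (first b) y, ?_⟩
  have h1 : (⨆ y : BName B, φ y) ≤ ⨆ i, b i := by
    refine iSup_le fun z => ?_
    refine le_iSup_of_le (e.symm (φ z)) ?_
    simp only [b]
    rw [if_pos ⟨z, by simp⟩]
    simp
  refine h1.trans ?_
  rw [← iSup_first b]
  refine iSup_le fun i => ?_
  exact hφ (eqB.symm (le_eqB_mix (first_disj b) i)) ((first_le b i).trans (hy i))

/-! ### Relations -/

theorem relB_congr {p : B} {f a a' b b' : BName B} (ha : p ≤ eqB a a') (hb : p ≤ eqB b b')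
    (h : p ≤ relB f a b) : p ≤ relB f a' b' := by
  rw [relB_eq] at h ⊢
  exact memB_congr_left (opair_congr ha hb) h

theorem relB_congr_fun {p : B} {f f' a b : BName B} (hf : p ≤ eqB f f')
    (h : p ≤ relB f a b) : p ≤ relB f' a b := by
  rw [relB_eq] at h ⊢
  exact memB_congr_right hf h

theorem ext_relB_fun (x y : BName B) : Ext (fun f => relB f x y) := fun _ _ _ h1 h2 =>
  relB_congr_fun h1 h2

theorem ext_relB_left (f y : BName B) : Ext (fun x => relB f x y) := fun _ _ _ h1 h2 =>
  relB_congr h1 (le_eqB_refl _ _) h2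

theorem ext_relB_right (f x : BName B) : Ext (fun y => relB f x y) := fun _ _ _ h1 h2 =>
  relB_congr (le_eqB_refl _ _) h1 h2


/-! ### Functions -/

theorem isFunOnB_intro {p : B} {f d : BName B}
    (h1 : ∀ z q, q ≤ p → q ≤ memB z f →
      q ≤ ⨆ x : BName B, ⨆ y : BName B, memB x d ⊓ eqB z (opair x y))
    (h2 : ∀ x q, q ≤ p → q ≤ memB x d → q ≤ ⨆ y : BName B, relB f x y)
    (h3 : ∀ x y y' q, q ≤ p → q ≤ relB f x y → q ≤ relB f x y' → q ≤ eqB y y') :
    p ≤ isFunOnB f d := by
  refine le_inf (le_inf ?_ ?_) ?_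
  · refine le_iInf fun z => himp_intro fun q hq hz => ?_
    simp only [isOPairB_eq]
    exact h1 z q hq hz
  · exact le_iInf fun x => himp_intro fun q hq hz => h2 x q hq hz
  · exact le_iInf fun x => le_iInf fun y => le_iInf fun y' => himp_intro fun q hq hz =>
      h3 x y y' q hq (hz.trans inf_le_left) (hz.trans inf_le_right)

theorem isFunOnB_total {p : B} {f d : BName B} (h : p ≤ isFunOnB f d) {x : BName B}
    (hx : p ≤ memB x d) : p ≤ ⨆ y : BName B, relB f x y :=
  himp_mp (iInf_mp (h.trans (inf_le_left.trans inf_le_right)) x) hx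

theorem isFunOnB_unique {p : B} {f d : BName B} (h : p ≤ isFunOnB f d) {x y y' : BName B}
    (h1 : p ≤ relB f x y) (h2 : p ≤ relB f x y') : p ≤ eqB y y' :=
  himp_mp (iInf_mp (iInf_mp (iInf_mp (h.trans inf_le_right) x) y) y') (le_inf h1 h2)

theorem isFunOnB_dom {p : B} {f d : BName B} (h : p ≤ isFunOnB f d) {x y : BName B}
    (h1 : p ≤ relB f x y) : p ≤ memB x d := by
  have h2 := himp_mp (iInf_mp (h.trans (inf_le_left.trans inf_le_left)) (opair x y))
    (by rwa [← relB_eq])
  simp only [isOPairB_eq] at h2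
  refine iSup_elim h2 fun x' q hq hq1 => iSup_elim hq1 fun y' r hr hr1 => ?_
  exact memB_congr_left (eqB.symm (opair_inj_left (hr1.trans inf_le_right)))
    (hr1.trans inf_le_left)


/-! ### Small names -/

/-- The name of the set of the `x i` with the values `a i`, for a small index type. -/
def smN {ι : Type} (x : ι → BName B) (a : ι → B) : BName B :=
  BName.mk (ULift.{u} ι) (fun i => x i.down) (fun i => a i.down)

theorem memB_smN {ι : Type} (t : BName B) (x : ι → BName B) (a : ι → B) :
    memB t (smN x a) = ⨆ i, a i ⊓ eqB t (x i) := by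
  rw [smN, memB_mk]
  apply le_antisymm
  · exact iSup_le fun i => le_iSup_of_le i.down le_rfl
  · exact iSup_le fun i => iSup_intro ⟨i⟩ le_rfl

/-! ### Ordinals -/

section

variable {W : Type} [LinearOrder W] [WellFoundedLT W]

/-- The canonical name of (the von Neumann ordinal of) `w : W`. -/
noncomputable def ordN (B : Type u) [CompleteBooleanAlgebra B] {W : Type} [LinearOrder W]
    [WellFoundedLT W] : W → BName B :=
  (wellFounded_lt (α := W)).fix fun w rec =>
    smN (ι := {v : W // v < w}) (fun v => rec v.1 v.2) (fun _ => ⊤)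

/-- The canonical name of the order type of `W`. -/
noncomputable def kapN (B : Type u) [CompleteBooleanAlgebra B] (W : Type) [LinearOrder W]
    [WellFoundedLT W] : BName B :=
  smN (ι := W) (ordN B) (fun _ => ⊤)

theorem ordN_eq (w : W) :
    ordN B w = smN (ι := {v : W // v < w}) (fun v => ordN B v.1) (fun _ => ⊤) := by
  unfold ordN
  exact WellFounded.fix_eq _ _ _

theorem memB_ordN (t : BName B) (w : W) :
    memB t (ordN B w) = ⨆ v : {v : W // v < w}, eqB t (ordN B v.1) := by
  rw [ordN_eq, memB_smN]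
  exact iSup_congr fun n => top_inf_eq _

theorem memB_kapN (t : BName B) : memB t (kapN B W) = ⨆ w : W, eqB t (ordN B w) := by
  rw [kapN, memB_smN]
  exact iSup_congr fun n => top_inf_eq _

theorem ordN_mem_kapN (w : W) : memB (ordN B w) (kapN B W) = ⊤ := by
  rw [memB_kapN, eq_top_iff]
  exact iSup_intro w (le_eqB_refl _ _)

theorem ordN_mem_ordN {v w : W} (h : v < w) : memB (ordN B v) (ordN B w) = ⊤ := by
  rw [memB_ordN, eq_top_iff]
  exact iSup_intro (⟨v, h⟩ : {v : W // v < w}) (le_eqB_refl _ _)

theorem ordN_notMem_self (w : W) : memB (ordN B w) (ordN B w) = ⊥ := by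
  induction w using WellFoundedLT.induction with
  | ind w ih =>
    rw [eq_bot_iff]
    conv_lhs => rw [memB_ordN]
    refine iSup_le fun v => ?_
    have h1 : eqB (ordN B w) (ordN B v.1) ≤ memB (ordN B v.1) (ordN B w) := by
      rw [ordN_mem_ordN v.2]; exact le_top
    have h2 := memB_congr_right (le_refl (eqB (ordN B w) (ordN B v.1))) h1
    rwa [ih v.1 v.2] at h2

theorem eqB_ordN_lt {v w : W} (h : v < w) : eqB (ordN B v) (ordN B w) = ⊥ := by
  rw [eq_bot_iff]
  have h1 : eqB (ordN B v) (ordN B w) ≤ memB (ordN B v) (ordN B w) := by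
    rw [ordN_mem_ordN h]; exact le_top
  have h2 := memB_congr_right (eqB.symm (le_refl (eqB (ordN B v) (ordN B w)))) h1
  rwa [ordN_notMem_self] at h2

theorem eqB_ordN_ne {v w : W} (h : v ≠ w) : eqB (ordN B v) (ordN B w) = ⊥ := by
  rcases lt_or_gt_of_ne h with h | h
  · exact eqB_ordN_lt h
  · rw [eqB_symm]
    exact eqB_ordN_lt h

end

end Pool.Agent.KSt
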