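import Pool.Agent.Lib.SymModel.RO
import Pool.Agent.Lib.MP_d9d638_lc.KS.B.Nm
import Pool.Agent.Lib.MP_a1c723_lc.BV.Defs

/-!
# KS, module B.Fo: the forcing relation for names over the regular open algebra of a preorder

(As `MP_849e4d_lc.BV.Force`, for a preorder in any universe.)
-/

set_option autoImplicit false

namespace Pool.Agent.KSt

open Pool.Agent.MPa4e7db Pool.Agent.Lib.SymModel Pool.Agent.StarRoth.BV

universe u

variable {P : Type u} [Preorder P]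

namespace Fr

/-! ### Connectives -/

theorem down {U : RO P} {p q : P} (hp : p ∈ U) (hq : q ≤ p) : q ∈ U := U.down hp hq

theorem of_le {U V : RO P} (h : ∀ x : RO P, x ≤ U → x ≤ V) {p : P} (hp : p ∈ U) : p ∈ V :=
  RO.prin_le_iff.1 (h _ (RO.prin_le_iff.2 hp))

theorem of_le2 {U V W : RO P} (h : ∀ x : RO P, x ≤ U → x ≤ V → x ≤ W) {p : P} (hp : p ∈ U)
    (hp' : p ∈ V) : p ∈ W :=
  RO.prin_le_iff.1 (h _ (RO.prin_le_iff.2 hp) (RO.prin_le_iff.2 hp'))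

/-- To force `U` below `p` it is enough to force it densely. -/
theorem dense {U : RO P} {p : P} (h : ∀ q ≤ p, ∃ r ≤ q, r ∈ U) : p ∈ U := U.mem_of_dense h

theorem iSup_mk {ι : Sort*} {U : ι → RO P} {p : P} (i : ι) (h : p ∈ U i) : p ∈ ⨆ i, U i :=
  le_iSup U i p h

theorem iSup_ex {ι : Sort*} {U : ι → RO P} {p : P} (h : p ∈ ⨆ i, U i) : ∃ q ≤ p, ∃ i, q ∈ U i :=
  RO.mem_iSup.1 h p le_rfl

theorem iSup_elim {ι : Sort*} {U : ι → RO P} {V : RO P} {p : P} (h : p ∈ ⨆ i, U i)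
    (H : ∀ q ≤ p, ∀ i, q ∈ U i → q ∈ V) : p ∈ V := by
  refine dense fun q hq => ?_
  obtain ⟨r, hr, i, hi⟩ := iSup_ex (down h hq)
  exact ⟨r, hr, H r (hr.trans hq) i hi⟩

theorem iInf_mp {ι : Sort*} {U : ι → RO P} {p : P} (h : p ∈ ⨅ i, U i) (i : ι) : p ∈ U i :=
  RO.mem_iInf.1 h i

theorem himp_mp {U V : RO P} {p : P} (h : p ∈ U ⇨ V) (h1 : p ∈ U) : p ∈ V :=
  RO.mem_himp.1 h p le_rfl h1

theorem compl_mp {U : RO P} {p : P} (h : p ∈ Uᶜ) (h1 : p ∈ U) : False :=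
  RO.mem_compl.1 h p le_rfl h1

theorem decide (U : RO P) (p : P) : ∃ q ≤ p, q ∈ U ∨ q ∈ Uᶜ := by
  by_cases h : ∃ q ≤ p, q ∈ U
  · obtain ⟨q, hq, hU⟩ := h
    exact ⟨q, hq, Or.inl hU⟩
  · push Not at h
    exact ⟨p, le_rfl, Or.inr (RO.mem_compl.2 h)⟩

theorem mem_iffB {U V : RO P} {p : P} : p ∈ iffB U V ↔ ∀ q ≤ p, q ∈ U ↔ q ∈ V := by
  rw [iffB, RO.mem_inf, RO.mem_himp, RO.mem_himp]
  exact ⟨fun h q hq => ⟨h.1 q hq, h.2 q hq⟩, fun h => ⟨fun q hq => (h q hq).1,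
    fun q hq => (h q hq).2⟩⟩

theorem top {U : RO P} (h : U = ⊤) (p : P) : p ∈ U := by rw [h]; exact RO.mem_top p

theorem bot {U : RO P} (h : U = ⊥) {p : P} (hp : p ∈ U) : False := by
  rw [h] at hp; exact RO.notMem_bot p hp

/-! ### Equality and membership -/

variable {p : P} {x y z x' y' f g d r t : BName (RO P)}

theorem refl (p : P) (x : BName (RO P)) : p ∈ eqB x x := top (eqB_refl x) p

theorem symm (h : p ∈ eqB x y) : p ∈ eqB y x := by rwa [eqB_symm]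

theorem trans (h : p ∈ eqB x y) (h' : p ∈ eqB y z) : p ∈ eqB x z :=
  of_le2 (fun _ h1 h2 => eqB.trans h1 h2) h h'

theorem mem_left (h : p ∈ eqB x y) (h' : p ∈ memB x z) : p ∈ memB y z :=
  of_le2 (fun _ h1 h2 => memB_congr_left h1 h2) h h'

theorem mem_right (h : p ∈ eqB x y) (h' : p ∈ memB z x) : p ∈ memB z y :=
  of_le2 (fun _ h1 h2 => memB_congr_right h1 h2) h h'

theorem sub_iff : p ∈ subB x y ↔ ∀ z, ∀ q ≤ p, q ∈ memB z x → q ∈ memB z y := by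
  rw [subB, RO.mem_iInf]
  exact forall_congr' fun z => RO.mem_himp

theorem sub_mp (h : p ∈ subB x y) (h1 : p ∈ memB z x) : p ∈ memB z y :=
  sub_iff.1 h z p le_rfl h1

theorem sub_refl (p : P) (x : BName (RO P)) : p ∈ subB x x := sub_iff.2 fun _ _ _ h => h

theorem sub_of_eq (h : p ∈ eqB x y) : p ∈ subB x y :=
  sub_iff.2 fun _ _ hq h1 => mem_right (down h hq) h1

theorem sub_trans (h : p ∈ subB x y) (h' : p ∈ subB y z) : p ∈ subB x z :=
  sub_iff.2 fun _ _ hq h1 => sub_mp (down h' hq) (sub_mp (down h hq) h1)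

theorem sub_congr (h : p ∈ eqB x x') (h' : p ∈ eqB y y') (h1 : p ∈ subB x y) :
    p ∈ subB x' y' :=
  sub_trans (sub_of_eq (symm h)) (sub_trans h1 (sub_of_eq h'))

theorem ext (h1 : ∀ z, ∀ q ≤ p, q ∈ memB z x → q ∈ memB z y)
    (h2 : ∀ z, ∀ q ≤ p, q ∈ memB z y → q ∈ memB z x) : p ∈ eqB x y := by
  refine RO.prin_le_iff.1 (eqB_ext ?_ ?_)
  · intro z b hb hb' s hs
    refine dense fun q hq => ?_
    have h3 : q ∈ RO.prin p := hb q (down hs hq)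
    obtain ⟨r, hr, hrp⟩ := h3 q le_rfl
    exact ⟨r, hr, h1 z r hrp (down (hb' s hs) (hr.trans hq))⟩
  · intro z b hb hb' s hs
    refine dense fun q hq => ?_
    have h3 : q ∈ RO.prin p := hb q (down hs hq)
    obtain ⟨r, hr, hrp⟩ := h3 q le_rfl
    exact ⟨r, hr, h2 z r hrp (down (hb' s hs) (hr.trans hq))⟩

theorem eq_iff : p ∈ eqB x y ↔ ∀ z, ∀ q ≤ p, q ∈ memB z x ↔ q ∈ memB z y :=
  ⟨fun h _ _ hq => ⟨fun h1 => mem_right (down h hq) h1, fun h1 => mem_right (symm (down h hq)) h1⟩,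
    fun h => ext (fun z q hq => (h z q hq).1) (fun z q hq => (h z q hq).2)⟩

/-! ### Relations and functions -/

theorem rel_congr (hf : p ∈ eqB f g) (hx : p ∈ eqB x x') (hy : p ∈ eqB y y')
    (h : p ∈ relB f x y) : p ∈ relB g x' y' := by
  have h1 : p ∈ relB g x y := of_le2 (fun _ a b => relB_congr_fun a b) hf h
  have h2 : p ∈ relB g x' y := of_le2 (fun _ a b => relB_congr a (le_eqB_refl _ _) b) hx h1
  exact of_le2 (fun _ a b => relB_congr (le_eqB_refl _ _) a b) hy h2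

theorem rel_left (hx : p ∈ eqB x x') (h : p ∈ relB f x y) : p ∈ relB f x' y :=
  rel_congr (refl _ _) hx (refl _ _) h

theorem rel_right (hy : p ∈ eqB y y') (h : p ∈ relB f x y) : p ∈ relB f x y' :=
  rel_congr (refl _ _) (refl _ _) hy h

theorem fun_total (h : p ∈ isFunOnB f d) (hx : p ∈ memB x d) : p ∈ ⨆ y, relB f x y :=
  of_le2 (fun _ a b => isFunOnB_total a b) h hx

theorem fun_unique (h : p ∈ isFunOnB f d) (h1 : p ∈ relB f x y) (h2 : p ∈ relB f x y') :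
    p ∈ eqB y y' := by
  refine of_le2 (U := isFunOnB f d) (V := relB f x y ⊓ relB f x y')
    (fun _ a b => isFunOnB_unique a (b.trans inf_le_left) (b.trans inf_le_right)) h ⟨h1, h2⟩

theorem fun_dom (h : p ∈ isFunOnB f d) (h1 : p ∈ relB f x y) : p ∈ memB x d :=
  of_le2 (fun _ a b => isFunOnB_dom a b) h h1

theorem fun_intro
    (h1 : ∀ z, ∀ q ≤ p, q ∈ memB z f → ∃ r ≤ q, ∃ x y, r ∈ memB x d ∧ r ∈ eqB z (opair x y))
    (h2 : ∀ x, ∀ q ≤ p, q ∈ memB x d → ∃ r ≤ q, ∃ y, r ∈ relB f x y)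
    (h3 : ∀ x y y', ∀ q ≤ p, q ∈ relB f x y → q ∈ relB f x y' → q ∈ eqB y y') :
    p ∈ isFunOnB f d := by
  refine ⟨⟨?_, ?_⟩, ?_⟩
  · refine RO.mem_iInf.2 fun z => RO.mem_himp.2 fun q hq hz => dense fun q' hq' => ?_
    obtain ⟨r, hr, x, y, h4, h5⟩ := h1 z q' (hq'.trans hq) (down hz hq')
    refine ⟨r, hr, iSup_mk x (iSup_mk y ⟨h4, ?_⟩)⟩
    rw [isOPairB_eq]
    exact h5
  · refine RO.mem_iInf.2 fun x => RO.mem_himp.2 fun q hq hx => dense fun q' hq' => ?_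
    obtain ⟨r, hr, y, h4⟩ := h2 x q' (hq'.trans hq) (down hx hq')
    exact ⟨r, hr, iSup_mk y h4⟩
  · refine RO.mem_iInf.2 fun x => RO.mem_iInf.2 fun y => RO.mem_iInf.2 fun y' =>
      RO.mem_himp.2 fun q hq hx => h3 x y y' q hq hx.1 hx.2

theorem into_iff : p ∈ isFunIntoB f d r ↔
    p ∈ isFunOnB f d ∧ ∀ x y, ∀ q ≤ p, q ∈ relB f x y → q ∈ memB y r := by
  rw [isFunIntoB, RO.mem_inf]
  refine and_congr Iff.rfl ?_
  simp only [RO.mem_iInf, RO.mem_himp]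

theorem into_mem (h : p ∈ isFunIntoB f d r) (h1 : p ∈ relB f x y) : p ∈ memB y r :=
  (into_iff.1 h).2 x y p le_rfl h1


/-! ### The maximum principle -/

theorem full {φ : BName (RO P) → RO P} (hφ : Ext φ) (h : p ∈ ⨆ x, φ x) : ∃ x, p ∈ φ x := by
  obtain ⟨x, hx⟩ := exists_maxB hφ
  exact ⟨x, hx p h⟩

/-! ### Small names -/

theorem sm_ex {ι : Type} {n : ι → BName (RO P)} {a : ι → RO P} (h : p ∈ memB t (smN n a)) :
    ∃ q ≤ p, ∃ i, q ∈ a i ∧ q ∈ eqB t (n i) := by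
  rw [memB_smN] at h
  obtain ⟨q, hq, i, hi⟩ := iSup_ex h
  exact ⟨q, hq, i, hi.1, hi.2⟩

theorem sm_mk {ι : Type} {n : ι → BName (RO P)} {a : ι → RO P} (i : ι) (h : p ∈ a i)
    (h1 : p ∈ eqB t (n i)) : p ∈ memB t (smN n a) := by
  rw [memB_smN]
  exact iSup_mk i ⟨h, h1⟩

/-- Names with an index type in the universe of the algebra. -/
theorem mk_ex {ι : Type u} {n : ι → BName (RO P)} {a : ι → RO P}
    (h : p ∈ memB t (BName.mk ι n a)) : ∃ q ≤ p, ∃ i, q ∈ a i ∧ q ∈ eqB t (n i) := by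
  rw [memB_mk] at h
  obtain ⟨q, hq, i, hi⟩ := iSup_ex h
  exact ⟨q, hq, i, hi.1, hi.2⟩

theorem mk_mk {ι : Type u} {n : ι → BName (RO P)} {a : ι → RO P} (i : ι) (h : p ∈ a i)
    (h1 : p ∈ eqB t (n i)) : p ∈ memB t (BName.mk ι n a) := by
  rw [memB_mk]
  exact iSup_mk i ⟨h, h1⟩

theorem opair_iff : p ∈ eqB (opair x y) (opair x' y') ↔ p ∈ eqB x x' ∧ p ∈ eqB y y' := by
  rw [eqB_opair]; exact RO.mem_inf

theorem rel_iff : p ∈ relB f x y ↔ p ∈ memB (opair x y) f := by rw [relB_eq]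

/-! ### Natural numbers -/

theorem omega_ex (h : p ∈ memB t omegaN) : ∃ q ≤ p, ∃ n : ℕ, q ∈ eqB t (natN n) := by
  rw [memB_omegaN] at h
  exact iSup_ex h

theorem omega_mk (n : ℕ) (h : p ∈ eqB t (natN n)) : p ∈ memB t omegaN :=
  mem_left (symm h) (top (natN_mem_omegaN n) p)

theorem nat_inj {m n : ℕ} (h : p ∈ eqB (natN m : BName (RO P)) (natN n)) : m = n := by
  by_contra hne
  exact bot (eqB_natN_ne hne) h

/-! ### Ordinals -/

section

variable {W : Type} [LinearOrder W] [WellFoundedLT W] {v w : W}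

theorem ord_mem_ord : p ∈ memB (ordN (RO P) v) (ordN (RO P) w) ↔ v < w := by
  constructor
  · intro h
    rw [memB_ordN] at h
    obtain ⟨q, hq, i, hi⟩ := iSup_ex h
    by_contra hvw
    have hne : v ≠ i.1 := fun he => hvw (he ▸ i.2)
    exact bot (eqB_ordN_ne hne) hi
  · intro h
    exact top (ordN_mem_ordN h) p

theorem ord_inj (h : p ∈ eqB (ordN (RO P) v) (ordN (RO P) w)) : v = w := by
  by_contra hne
  exact bot (eqB_ordN_ne hne) h

theorem ord_ex (h : p ∈ memB t (ordN (RO P) w)) : ∃ q ≤ p, ∃ v < w, q ∈ eqB t (ordN _ v) := by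
  rw [memB_ordN] at h
  obtain ⟨q, hq, i, hi⟩ := iSup_ex h
  exact ⟨q, hq, i.1, i.2, hi⟩

theorem kap_ex (h : p ∈ memB t (kapN (RO P) W)) : ∃ q ≤ p, ∃ w : W, q ∈ eqB t (ordN _ w) := by
  rw [memB_kapN] at h
  exact iSup_ex h

theorem kap_mk (w : W) (h : p ∈ eqB t (ordN _ w)) : p ∈ memB t (kapN (RO P) W) :=
  mem_left (symm h) (top (ordN_mem_kapN w) p)

end

end Fr

end Pool.Agent.KSt
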