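import Pool.Agent.Lib.MP_d9d638_lc.KS.B.Fml
import Pool.Agent.Lib.MP_d9d638_lc.KS.B.Fo
import Pool.Agent.Lib.MP_d9d638_lc.KS.Iface

/-!
# KS, module B.FFo: the forcing clauses of the statement

For every notion `fX` of the statement, a structure `FX p …` with quantifiers over stronger
conditions and names, and the lemma that it describes `p ∈ val (fX …) v`.
-/

set_option autoImplicit false

namespace Pool.Agent.KSt

open Pool.Agent.MPa4e7db Pool.Agent.Lib.SymModel Pool.Agent.StarRoth.BV Pool.Agent.MP_5db68c_lc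

universe u

/-! ### Values of the formulas, in any universe -/

namespace Vl

section

variable {B : Type u} [CompleteBooleanAlgebra B] (φ ψ : Fml) (v : ℕ → BName B) (i j : ℕ)

theorem mem : val (.mem i j) v = memB (v i) (v j) := rfl
theorem eq : val (.eq i j) v = eqB (v i) (v j) := rfl
theorem neg : val (.neg φ) v = (val φ v)ᶜ := rfl
theorem and : val (.and φ ψ) v = val φ v ⊓ val ψ v := rfl
theorem all : val (.all φ) v = ⨅ x : BName B, val φ (push x v) := rfl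

theorem imp : val (fImp φ ψ) v = val φ v ⇨ val ψ v := by
  rw [fImp, neg, and, neg, compl_inf, compl_compl, himp_eq, sup_comm]

theorem or : val (fOr φ ψ) v = val φ v ⊔ val ψ v := by
  rw [fOr, neg, and, neg, neg, compl_inf, compl_compl, compl_compl]

theorem iff : val (fIff φ ψ) v = iffB (val φ v) (val ψ v) := by
  rw [fIff, and, imp, imp, iffB]

theorem ex : val (fEx φ) v = ⨆ x : BName B, val φ (push x v) := by
  rw [fEx, neg, all, compl_iInf]
  simp only [neg, compl_compl]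

theorem sub (x y : ℕ) : val (fSub x y) v = subB (v x) (v y) := by
  simp only [fSub, all, imp, mem, push_zero, push_succ, subB]

theorem uPair (z x y : ℕ) : val (fUPair z x y) v = isUPairB (v z) (v x) (v y) := by
  simp only [fUPair, all, iff, or, mem, eq, push_zero, push_succ, isUPairB]

theorem oPair (z x y : ℕ) : val (fOPair z x y) v = isOPairB (v z) (v x) (v y) := by
  simp only [fOPair, ex, and, uPair, push_zero, push_succ, isOPairB]

theorem empty (e : ℕ) : val (fEmpty e) v = isEmptyB (v e) := by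
  simp only [fEmpty, all, neg, mem, push_zero, push_succ, isEmptyB]

theorem succ (s n : ℕ) : val (fSucc s n) v = isSuccB (v s) (v n) := by
  simp only [fSucc, all, iff, or, mem, eq, push_zero, push_succ, isSuccB]

theorem inductive' (x : ℕ) : val (fInductive x) v = isInductiveB (v x) := by
  simp only [fInductive, all, ex, and, imp, mem, empty, succ,
    push_zero, push_succ, isInductiveB]

theorem omega (x : ℕ) : val (fOmega x) v = isOmegaB (v x) := by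
  simp only [fOmega, all, and, imp, inductive', sub, push_zero, push_succ,
    isOmegaB]

theorem rel (f x y : ℕ) : val (fRel f x y) v = relB (v f) (v x) (v y) := by
  simp only [fRel, ex, and, oPair, mem, push_zero, push_succ, relB]

theorem funOn (f d : ℕ) : val (fFunOn f d) v = isFunOnB (v f) (v d) := by
  simp only [fFunOn, all, ex, and, imp, oPair, rel, mem, eq,
    push_zero, push_succ, isFunOnB]

theorem funInto (f d r : ℕ) : val (fFunInto f d r) v = isFunIntoB (v f) (v d) (v r) := by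
  simp only [fFunInto, all, and, imp, rel, funOn, mem,
    push_zero, push_succ, isFunIntoB]

theorem inj (f d k : ℕ) : val (fInj f d k) v = isInjIntoB (v f) (v d) (v k) := by
  simp only [fInj, all, and, imp, rel, funOn, mem, eq,
    push_zero, push_succ, isInjIntoB]

theorem cardLe (d k : ℕ) : val (fCardLe d k) v = cardLeB (v d) (v k) := by
  simp only [fCardLe, ex, inj, push_zero, push_succ, cardLeB]

theorem trans (x : ℕ) : val (fTrans x) v = isTransB (v x) := by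
  simp only [fTrans, all, imp, mem, sub, push_zero, push_succ, isTransB]

theorem ord (x : ℕ) : val (fOrd x) v = isOrdB (v x) := by
  simp only [fOrd, all, and, imp, mem, trans, push_zero, push_succ, isOrdB]

theorem ctbl (s w : ℕ) : val (fCtbl s w) v = isCtblB (v s) (v w) := by
  simp only [fCtbl, ex, inj, push_zero, push_succ, isCtblB]

end

end Vl

/-! ### Forcing clauses of the connectives -/

variable {P : Type u} [Preorder P]

namespace Fc

section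

variable (φ ψ : Fml) (v : ℕ → BName (RO P)) (i j : ℕ) (p : P)

theorem neg : p ∈ val (.neg φ) v ↔ ∀ q ≤ p, q ∉ val φ v := RO.mem_compl
theorem and : p ∈ val (.and φ ψ) v ↔ p ∈ val φ v ∧ p ∈ val ψ v := RO.mem_inf
theorem all : p ∈ val (.all φ) v ↔ ∀ x, p ∈ val φ (push x v) := RO.mem_iInf
theorem imp : p ∈ val (fImp φ ψ) v ↔ ∀ q ≤ p, q ∈ val φ v → q ∈ val ψ v := by
  rw [Vl.imp]; exact RO.mem_himp
theorem or : p ∈ val (fOr φ ψ) v ↔ ∀ q ≤ p, ∃ r ≤ q, r ∈ val φ v ∨ r ∈ val ψ v := by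
  rw [Vl.or]; exact RO.mem_sup
theorem iff : p ∈ val (fIff φ ψ) v ↔ ∀ q ≤ p, (q ∈ val φ v ↔ q ∈ val ψ v) := by
  rw [Vl.iff]; exact Fr.mem_iffB
theorem ex : p ∈ val (fEx φ) v ↔ ∀ q ≤ p, ∃ r ≤ q, ∃ x, r ∈ val φ (push x v) := by
  rw [Vl.ex]; exact RO.mem_iSup

end

end Fc

/-! ### The clauses -/

/-- `p` forces that `f` is an injective function from `d` into `k`. -/
structure FInj (p : P) (f d k : BName (RO P)) : Prop where
  fn : p ∈ isFunOnB f d
  into : ∀ x y, ∀ q ≤ p, q ∈ relB f x y → q ∈ memB y k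
  inj : ∀ x x' y, ∀ q ≤ p, q ∈ relB f x y → q ∈ relB f x' y → q ∈ eqB x x'

theorem fInj_iff {p : P} {f d k : BName (RO P)} : p ∈ isInjIntoB f d k ↔ FInj p f d k := by
  unfold isInjIntoB
  simp only [RO.mem_inf, RO.mem_iInf, RO.mem_himp]
  constructor
  · rintro ⟨⟨h1, h2⟩, h3⟩
    exact ⟨h1, h2, fun x x' y q hq h4 h5 => h3 x x' y q hq ⟨h4, h5⟩⟩
  · rintro ⟨h1, h2, h3⟩
    exact ⟨⟨h1, h2⟩, fun x x' y q hq h4 => h3 x x' y q hq h4.1 h4.2⟩

/-- `p` forces that `(T, L)` is an `ω₁`-tree with height function `h`. -/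
structure FTree (p : P) (T L h w o : BName (RO P)) : Prop where
  nodes : ∀ s t, ∀ q ≤ p, q ∈ relB L s t → q ∈ memB s T ∧ q ∈ memB t T
  irr : ∀ t, ∀ q ≤ p, q ∉ relB L t t
  tra : ∀ r s t, ∀ q ≤ p, q ∈ relB L r s → q ∈ relB L s t → q ∈ relB L r t
  cmp : ∀ r s t, ∀ q ≤ p, q ∈ relB L r t → q ∈ relB L s t →
    ∃ q' ≤ q, q' ∈ eqB r s ∨ q' ∈ relB L r s ∨ q' ∈ relB L s r
  fn : p ∈ isFunIntoB h T o
  lt : ∀ s t α β, ∀ q ≤ p, q ∈ relB L s t → q ∈ relB h s α → q ∈ relB h t β → q ∈ memB α β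
  pre : ∀ t α β, ∀ q ≤ p, q ∈ relB h t β → q ∈ memB α β →
    ∃ q' ≤ q, ∃ s, q' ∈ relB L s t ∧ q' ∈ relB h s α
  lev : ∀ α, ∀ q ≤ p, q ∈ memB α o → ∃ q' ≤ q, ∃ t, q' ∈ relB h t α
  ctbl : ∀ α, ∀ q ≤ p, q ∈ memB α o → ∀ A, (∀ t, ∀ q' ≤ q, q' ∈ memB t A ↔ q' ∈ relB h t α) →
    q ∈ isCtblB A w

/-- `p` forces that `b` is a cofinal branch. -/
structure FBr (p : P) (b T L h o : BName (RO P)) : Prop where
  sub : ∀ t, ∀ q ≤ p, q ∈ memB t b → q ∈ memB t T
  lin : ∀ s t, ∀ q ≤ p, q ∈ memB s b → q ∈ memB t b →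
    ∃ q' ≤ q, q' ∈ eqB s t ∨ q' ∈ relB L s t ∨ q' ∈ relB L t s
  dc : ∀ s t, ∀ q ≤ p, q ∈ memB t b → q ∈ relB L s t → q ∈ memB s b
  cof : ∀ α, ∀ q ≤ p, q ∈ memB α o → ∃ q' ≤ q, ∃ t, q' ∈ memB t b ∧ q' ∈ relB h t α

/-- `p` forces that the tree has at least `ω₂` cofinal branches. -/
def FKur (p : P) (T L h o : BName (RO P)) : Prop :=
  ∀ q ≤ p, ∀ f, q ∈ isFunOnB f o →
    (∀ b, ∀ r ≤ q, FBr r b T L h o → ∃ r' ≤ r, ∃ α, r' ∈ relB f α b) → False

/-- `p` forces that the tree is strong, with the given `S` and `F`. -/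
structure FStr (p : P) (S F T L h o : BName (RO P)) : Prop where
  br : ∀ b, ∀ q ≤ p, q ∈ memB b S ↔ FBr q b T L h o
  fn : p ∈ isFunOnB F S
  sub : ∀ b x, ∀ q ≤ p, q ∈ relB F b x → q ∈ subB x o
  surj : ∀ x, ∀ q ≤ p, q ∈ subB x o → ∃ q' ≤ q, ∃ b, q' ∈ relB F b x
  cont : ∀ b x α, ∀ q ≤ p, q ∈ relB F b x → q ∈ memB α o → ∃ q' ≤ q, ∃ t, q' ∈ memB t b ∧
    ∀ b' x', ∀ r ≤ q', r ∈ relB F b' x' → r ∈ memB t b' → ∀ ξ, ∀ s ≤ r, s ∈ memB ξ α →
      (s ∈ memB ξ x ↔ s ∈ memB ξ x')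

/-- `p` forces that `o = ω₁`. -/
structure FOm1 (p : P) (o w : BName (RO P)) : Prop where
  ord : p ∈ isOrdB o
  unc : ∀ q ≤ p, ∀ f, ¬ FInj q f o w
  ctbl : ∀ α, ∀ q ≤ p, q ∈ memB α o → q ∈ isCtblB α w

/-- `p` forces CH. -/
def FCH (p : P) (w o : BName (RO P)) : Prop :=
  ∀ c, ∀ q ≤ p, (∀ x, ∀ r ≤ q, r ∈ memB x c ↔ r ∈ subB x w) → ∃ q' ≤ q, ∃ f, FInj q' f c o

theorem FTree.mono {p q : P} {T L h w o : BName (RO P)} (H : FTree p T L h w o) (hq : q ≤ p) :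
    FTree q T L h w o where
  nodes s t r hr := H.nodes s t r (hr.trans hq)
  irr t r hr := H.irr t r (hr.trans hq)
  tra a b c r hr := H.tra a b c r (hr.trans hq)
  cmp a b c r hr := H.cmp a b c r (hr.trans hq)
  fn := Fr.down H.fn hq
  lt a b c d r hr := H.lt a b c d r (hr.trans hq)
  pre a b c r hr := H.pre a b c r (hr.trans hq)
  lev a r hr := H.lev a r (hr.trans hq)
  ctbl a r hr := H.ctbl a r (hr.trans hq)

theorem FBr.mono {p q : P} {b T L h o : BName (RO P)} (H : FBr p b T L h o) (hq : q ≤ p) :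
    FBr q b T L h o where
  sub t r hr := H.sub t r (hr.trans hq)
  lin s t r hr := H.lin s t r (hr.trans hq)
  dc s t r hr := H.dc s t r (hr.trans hq)
  cof α r hr := H.cof α r (hr.trans hq)

section

variable (v : ℕ → BName (RO P)) (p : P)

theorem ctbl_iff {p : P} {s w : BName (RO P)} :
    p ∈ isCtblB s w ↔ ∀ q ≤ p, ∃ r ≤ q, ∃ f, FInj r f s w := by
  unfold isCtblB
  rw [RO.mem_iSup]
  simp only [fInj_iff]

theorem fOmegaOne_of {o w : ℕ} (H : FOm1 p (v o) (v w)) : p ∈ val (fOmegaOne o w) v := by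
  simp only [fOmegaOne, Fc.and, Fc.neg, Fc.all, Fc.imp, Vl.ord, Vl.ctbl, Vl.mem,
    push_zero, push_succ]
  refine ⟨H.ord, fun q hq hc => ?_, fun x q hq hx => H.ctbl x q hq hx⟩
  obtain ⟨r, hr, f, hf⟩ := ctbl_iff.1 hc q le_rfl
  exact H.unc r (hr.trans hq) f hf

theorem fCH_of {w o : ℕ} (H : FCH p (v w) (v o)) : p ∈ val (fCH w o) v := by
  simp only [fCH, Fc.all, Fc.imp, Fc.iff, Vl.mem, Vl.sub, Vl.cardLe, push_zero, push_succ]
  intro c q hq hc
  unfold cardLeB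
  rw [RO.mem_iSup]
  intro r hr
  obtain ⟨q', hq', f, hf⟩ := H c r (hr.trans hq) fun x s hs => hc x s (hs.trans hr)
  exact ⟨q', hq', f, fInj_iff.2 hf⟩

theorem fTree_iff {T L h w o : ℕ} :
    p ∈ val (fTree T L h w o) v ↔ FTree p (v T) (v L) (v h) (v w) (v o) := by
  simp only [fTree, fTree1, fTree2, fTree3, fTree4, fTree6, fTree7, fTree8, Fc.and, Fc.neg,
    Fc.all, Fc.imp, Fc.iff, Fc.ex, Fc.or, Vl.mem, Vl.eq, Vl.rel, Vl.funInto, Vl.ctbl,
    push_zero, push_succ]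
  constructor
  · rintro ⟨h1, h2, h3, h4, h5, h6, h7, h8⟩
    refine ⟨fun s t q hq h => h1 s t q hq h, fun t q hq h => h2 t q hq h,
      fun r s t q hq ha hb => h3 r s t q hq ⟨ha, hb⟩, fun r s t q hq ha hb => ?_, h5,
      fun s t α β q hq ha hb hc => h6 s t α β q hq ⟨ha, hb, hc⟩,
      fun t α β q hq ha hb => h7 t α β q hq ⟨ha, hb⟩ q le_rfl,
      fun α q hq ha => (h8 α q hq ha).1 q le_rfl,
      fun α q hq ha A hA => (h8 α q hq ha).2 A q le_rfl hA⟩
    obtain ⟨r', hr', h9 | h9⟩ := h4 r s t q hq ⟨ha, hb⟩ q le_rfl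
    · exact ⟨r', hr', Or.inl h9⟩
    · obtain ⟨r'', hr'', h10⟩ := h9 r' le_rfl
      exact ⟨r'', hr''.trans hr', Or.inr h10⟩
  · rintro ⟨h1, h2, h3, h4, h5, h6, h7, h8, h9⟩
    refine ⟨fun s t q hq h => h1 s t q hq h, fun t q hq h => h2 t q hq h,
      fun r s t q hq ha => h3 r s t q hq ha.1 ha.2, fun r s t q hq ha q1 hq1 => ?_, h5,
      fun s t α β q hq ha => h6 s t α β q hq ha.1 ha.2.1 ha.2.2,
      fun t α β q hq ha q1 hq1 => h7 t α β q1 (hq1.trans hq) (Fr.down ha.1 hq1)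
        (Fr.down ha.2 hq1),
      fun α q hq ha => ⟨fun q1 hq1 => h8 α q1 (hq1.trans hq) (Fr.down ha hq1),
        fun A q1 hq1 hA => h9 α q1 (hq1.trans hq) (Fr.down ha hq1) A hA⟩⟩
    obtain ⟨q2, hq2, h10 | h10⟩ := h4 r s t q1 (hq1.trans hq) (Fr.down ha.1 hq1)
      (Fr.down ha.2 hq1)
    · exact ⟨q2, hq2, Or.inl h10⟩
    · exact ⟨q2, hq2, Or.inr fun q3 hq3 => ⟨q3, le_rfl, h10.imp (fun x => Fr.down x hq3)
        (fun x => Fr.down x hq3)⟩⟩

theorem fBranch_iff {b T L h o : ℕ} :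
    p ∈ val (fBranch b T L h o) v ↔ FBr p (v b) (v T) (v L) (v h) (v o) := by
  simp only [fBranch, Fc.and, Fc.all, Fc.imp, Fc.ex, Fc.or, Vl.mem, Vl.eq, Vl.rel, Vl.sub,
    push_zero, push_succ]
  constructor
  · rintro ⟨h1, h2, h3, h4⟩
    refine ⟨fun t q hq h => Fr.sub_mp (Fr.down h1 hq) h, fun s t q hq ha hb => ?_,
      fun s t q hq ha hb => h3 s t q hq ⟨ha, hb⟩, fun α q hq ha => h4 α q hq ha q le_rfl⟩
    obtain ⟨r', hr', h9 | h9⟩ := h2 s t q hq ⟨ha, hb⟩ q le_rfl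
    · exact ⟨r', hr', Or.inl h9⟩
    · obtain ⟨r'', hr'', h10⟩ := h9 r' le_rfl
      exact ⟨r'', hr''.trans hr', Or.inr h10⟩
  · rintro ⟨h1, h2, h3, h4⟩
    refine ⟨Fr.sub_iff.2 fun t q hq h => h1 t q hq h, fun s t q hq ha q1 hq1 => ?_,
      fun s t q hq ha => h3 s t q hq ha.1 ha.2,
      fun α q hq ha q1 hq1 => h4 α q1 (hq1.trans hq) (Fr.down ha hq1)⟩
    obtain ⟨q2, hq2, h10 | h10⟩ := h2 s t q1 (hq1.trans hq) (Fr.down ha.1 hq1)
      (Fr.down ha.2 hq1)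
    · exact ⟨q2, hq2, Or.inl h10⟩
    · exact ⟨q2, hq2, Or.inr fun q3 hq3 => ⟨q3, le_rfl, h10.imp (fun x => Fr.down x hq3)
        (fun x => Fr.down x hq3)⟩⟩

/-- Being forced to be a branch is a regular property, invariant under forced equality. -/
theorem FBr.dense {p : P} {b T L h o : BName (RO P)}
    (H : ∀ q ≤ p, ∃ r ≤ q, FBr r b T L h o) : FBr p b T L h o := by
  have h1 : ∀ q : P, q ∈ val (fBranch 0 1 2 3 4)
      (push b (push T (push L (push h (push o (fun _ => b)))))) ↔ FBr q b T L h o := fun q =>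
    fBranch_iff _ q
  rw [← h1]
  refine Fr.dense fun q hq => ?_
  obtain ⟨r, hr, h2⟩ := H q hq
  exact ⟨r, hr, (h1 r).2 h2⟩

theorem FBr.congr {p : P} {b b' T L h o : BName (RO P)} (H : FBr p b T L h o)
    (hb : p ∈ eqB b b') : FBr p b' T L h o where
  sub t q hq h1 := H.sub t q hq (Fr.mem_right (Fr.symm (Fr.down hb hq)) h1)
  lin s t q hq h1 h2 := H.lin s t q hq (Fr.mem_right (Fr.symm (Fr.down hb hq)) h1)
    (Fr.mem_right (Fr.symm (Fr.down hb hq)) h2)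
  dc s t q hq h1 h2 := Fr.mem_right (Fr.down hb hq)
    (H.dc s t q hq (Fr.mem_right (Fr.symm (Fr.down hb hq)) h1) h2)
  cof α q hq h1 := by
    obtain ⟨q', hq', t, h2, h3⟩ := H.cof α q hq h1
    exact ⟨q', hq', t, Fr.mem_right (Fr.down hb (hq'.trans hq)) h2, h3⟩

theorem fKurepa_iff {T L h o : ℕ} :
    p ∈ val (fKurepa T L h o) v ↔ FKur p (v T) (v L) (v h) (v o) := by
  simp only [fKurepa, Fc.neg, Fc.and, Fc.all, Fc.imp, Fc.ex, fBranch_iff, Vl.rel, Vl.funOn,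
    push_zero, push_succ, FKur]
  constructor
  · intro H q hq f hf h1
    refine H q hq fun q1 hq1 => ⟨q1, le_rfl, f, Fr.down hf hq1, fun b r hr h2 r1 hr1 => ?_⟩
    exact h1 b r1 (hr1.trans (hr.trans hq1)) (h2.mono hr1)
  · intro H q hq h1
    obtain ⟨r, hr, f, hf, h2⟩ := h1 q le_rfl
    exact H r (hr.trans hq) f hf fun b s hs h3 => h2 b s hs h3 s le_rfl

theorem fStrong_of {T L h o : ℕ}
    (H : ∀ q ≤ p, ∃ r ≤ q, ∃ S F, FStr r S F (v T) (v L) (v h) (v o)) :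
    p ∈ val (fStrong T L h o) v := by
  simp only [fStrong, Fc.and, Fc.all, Fc.imp, Fc.iff, Fc.ex, fBranch_iff, Vl.rel, Vl.mem, Vl.sub,
    Vl.funOn, push_zero, push_succ]
  intro q hq
  obtain ⟨r, hr, S, F, h1, h2, h3, h4, h5⟩ := H q hq
  refine ⟨r, hr, S, fun r1 hr1 => ⟨r1, le_rfl, F, fun b s hs => h1 b s (hs.trans hr1),
    Fr.down h2 hr1, fun b x s hs => h3 b x s (hs.trans hr1),
    fun x s hs h6 s1 hs1 => h4 x s1 (hs1.trans (hs.trans hr1)) (Fr.down h6 hs1),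
    fun b x α s hs h6 s1 hs1 => ?_⟩⟩
  obtain ⟨q', hq', t, h7, h8⟩ := h5 b x α s1 (hs1.trans (hs.trans hr1)) (Fr.down h6.1 hs1)
    (Fr.down h6.2 hs1)
  refine ⟨q', hq', t, h7, fun b' x' a ha h9 ξ c hc h10 d hd => ?_⟩
  exact h8 b' x' a ha h9.1 h9.2 ξ d (hd.trans hc) (Fr.down h10 hd)

end

end Pool.Agent.KSt
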