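import Pool.Agent.Lib.MP_d9d638_lc.KS.B.St
import Pool.Agent.Lib.MP_a1c723_lc.BV.Formula

/-!
# KS, module B.Fml: the statement as a first-order sentence
-/

set_option autoImplicit false

namespace Pool.Agent.KSt

open Pool.Agent.StarRoth.BV Pool.Agent.MPa4e7db Pool.Agent.MP_5db68c_lc

def fOmegaOne (o w : ℕ) : Fml :=
  .and (fOrd o) (.and (.neg (fCtbl o w)) (.all (fImp (.mem 0 (o + 1)) (fCtbl 0 (w + 1)))))

def fCH (w o : ℕ) : Fml :=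
  .all (fImp (.all (fIff (.mem 0 (0 + 1)) (fSub 0 (w + 1 + 1)))) (fCardLe 0 (o + 1)))

def fTree1 (T L : ℕ) : Fml :=
  .all (.all (fImp (fRel (L + 1 + 1) (0 + 1) 0)
    (.and (.mem (0 + 1) (T + 1 + 1)) (.mem 0 (T + 1 + 1)))))

def fTree2 (L : ℕ) : Fml := .all (.neg (fRel (L + 1) 0 0))

def fTree3 (L : ℕ) : Fml :=
  .all (.all (.all (fImp (.and (fRel (L + 1 + 1 + 1) (0 + 1 + 1) (0 + 1))
    (fRel (L + 1 + 1 + 1) (0 + 1) 0)) (fRel (L + 1 + 1 + 1) (0 + 1 + 1) 0))))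

def fTree4 (L : ℕ) : Fml :=
  .all (.all (.all (fImp (.and (fRel (L + 1 + 1 + 1) (0 + 1 + 1) 0)
    (fRel (L + 1 + 1 + 1) (0 + 1) 0)) (fOr (.eq (0 + 1 + 1) (0 + 1))
      (fOr (fRel (L + 1 + 1 + 1) (0 + 1 + 1) (0 + 1))
        (fRel (L + 1 + 1 + 1) (0 + 1) (0 + 1 + 1)))))))

def fTree6 (L h : ℕ) : Fml :=
  .all (.all (.all (.all (fImp (.and (fRel (L + 1 + 1 + 1 + 1) (0 + 1 + 1 + 1) (0 + 1 + 1))
    (.and (fRel (h + 1 + 1 + 1 + 1) (0 + 1 + 1 + 1) (0 + 1))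
      (fRel (h + 1 + 1 + 1 + 1) (0 + 1 + 1) 0))) (.mem (0 + 1) 0)))))

def fTree7 (L h : ℕ) : Fml :=
  .all (.all (.all (fImp (.and (fRel (h + 1 + 1 + 1) (0 + 1 + 1) 0) (.mem (0 + 1) 0))
    (fEx (.and (fRel (L + 1 + 1 + 1 + 1) 0 (0 + 1 + 1 + 1))
      (fRel (h + 1 + 1 + 1 + 1) 0 (0 + 1 + 1)))))))

def fTree8 (h w o : ℕ) : Fml :=
  .all (fImp (.mem 0 (o + 1)) (.and (fEx (fRel (h + 1 + 1) 0 (0 + 1)))
    (.all (fImp (.all (fIff (.mem 0 (0 + 1)) (fRel (h + 1 + 1 + 1) 0 (0 + 1 + 1))))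
      (fCtbl 0 (w + 1 + 1))))))

def fTree (T L h w o : ℕ) : Fml :=
  .and (fTree1 T L) (.and (fTree2 L) (.and (fTree3 L) (.and (fTree4 L) (.and (fFunInto h T o)
    (.and (fTree6 L h) (.and (fTree7 L h) (fTree8 h w o)))))))

def fBranch (b T L h o : ℕ) : Fml :=
  .and (fSub b T) (.and (.all (.all (fImp (.and (.mem (0 + 1) (b + 1 + 1)) (.mem 0 (b + 1 + 1)))
    (fOr (.eq (0 + 1) 0) (fOr (fRel (L + 1 + 1) (0 + 1) 0) (fRel (L + 1 + 1) 0 (0 + 1)))))))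
    (.and (.all (.all (fImp (.and (.mem 0 (b + 1 + 1)) (fRel (L + 1 + 1) (0 + 1) 0))
      (.mem (0 + 1) (b + 1 + 1)))))
      (.all (fImp (.mem 0 (o + 1)) (fEx (.and (.mem 0 (b + 1 + 1))
        (fRel (h + 1 + 1) 0 (0 + 1))))))))

def fKurepa (T L h o : ℕ) : Fml :=
  .neg (fEx (.and (fFunOn 0 (o + 1))
    (.all (fImp (fBranch 0 (T + 1 + 1) (L + 1 + 1) (h + 1 + 1) (o + 1 + 1))
      (fEx (fRel (0 + 1 + 1) 0 (0 + 1)))))))

def fStrong (T L h o : ℕ) : Fml :=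
  fEx (fEx (.and
    (.all (fIff (.mem 0 (0 + 1 + 1))
      (fBranch 0 (T + 1 + 1 + 1) (L + 1 + 1 + 1) (h + 1 + 1 + 1) (o + 1 + 1 + 1))))
    (.and (fFunOn 0 (0 + 1))
    (.and (.all (.all (fImp (fRel (0 + 1 + 1) (0 + 1) 0) (fSub 0 (o + 1 + 1 + 1 + 1)))))
    (.and (.all (fImp (fSub 0 (o + 1 + 1 + 1)) (fEx (fRel (0 + 1 + 1) 0 (0 + 1)))))
    (.all (.all (.all (fImp (.and (fRel (0 + 1 + 1 + 1) (0 + 1 + 1) (0 + 1))
      (.mem 0 (o + 1 + 1 + 1 + 1 + 1)))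
      (fEx (.and (.mem 0 (0 + 1 + 1 + 1))
        (.all (.all (fImp (.and (fRel (0 + 1 + 1 + 1 + 1 + 1 + 1) (0 + 1) 0)
          (.mem (0 + 1 + 1) (0 + 1)))
          (.all (fImp (.mem 0 (0 + 1 + 1 + 1 + 1))
            (fIff (.mem 0 (0 + 1 + 1 + 1 + 1 + 1)) (.mem 0 (0 + 1)))))))))))))))))))

def fSt : Fml :=
  fEx (fEx (.and (fOmega (0 + 1)) (.and (fOmegaOne 0 (0 + 1)) (.and (fCH (0 + 1) 0)
    (.and (fEx (fEx (fEx (.and
      (fTree (0 + 1 + 1) (0 + 1) 0 (0 + 1 + 1 + 1 + 1) (0 + 1 + 1 + 1))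
      (fKurepa (0 + 1 + 1) (0 + 1) 0 (0 + 1 + 1 + 1))))))
      (.all (.all (.all (fImp (.and
        (fTree (0 + 1 + 1) (0 + 1) 0 (0 + 1 + 1 + 1 + 1) (0 + 1 + 1 + 1))
        (fKurepa (0 + 1 + 1) (0 + 1) 0 (0 + 1 + 1 + 1)))
        (fStrong (0 + 1 + 1) (0 + 1) 0 (0 + 1 + 1 + 1)))))))))))

section

variable {M : Type} [Membership M M] (v : ℕ → M)

theorem sat_fOmegaOne (o w : ℕ) : Sat (fOmegaOne o w) v ↔ IsOmegaOneIn (v o) (v w) := by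
  simp only [fOmegaOne, sat_all, sat_imp, sat_and, sat_neg, sat_mem, sat_fOrd, sat_fCtbl,
    push_zero, push_succ, IsOmegaOneIn]

theorem sat_fCH (w o : ℕ) : Sat (fCH w o) v ↔ CHIn (v w) (v o) := by
  simp only [fCH, sat_all, sat_imp, sat_iff, sat_mem, sat_fSub, sat_fCardLe,
    push_zero, push_succ, CHIn]

theorem sat_fTree (T L h w o : ℕ) :
    Sat (fTree T L h w o) v ↔ IsTreeIn (v T) (v L) (v h) (v w) (v o) := by
  simp only [fTree, fTree1, fTree2, fTree3, fTree4, fTree6, fTree7, fTree8, sat_all, sat_ex,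
    sat_imp, sat_iff, sat_or, sat_and, sat_neg, sat_mem, sat_eq, sat_fRel, sat_fFunInto,
    sat_fCtbl, push_zero, push_succ, IsTreeIn]

theorem sat_fBranch (b T L h o : ℕ) :
    Sat (fBranch b T L h o) v ↔ IsBranchIn (v b) (v T) (v L) (v h) (v o) := by
  simp only [fBranch, sat_all, sat_ex, sat_imp, sat_or, sat_and, sat_mem, sat_eq, sat_fRel,
    sat_fSub, push_zero, push_succ, IsBranchIn]

theorem sat_fKurepa (T L h o : ℕ) :
    Sat (fKurepa T L h o) v ↔ IsKurepaIn (v T) (v L) (v h) (v o) := by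
  simp only [fKurepa, sat_all, sat_ex, sat_imp, sat_and, sat_neg, sat_fRel, sat_fFunOn,
    sat_fBranch, push_zero, push_succ, IsKurepaIn]

theorem sat_fStrong (T L h o : ℕ) :
    Sat (fStrong T L h o) v ↔ IsStrongIn (v T) (v L) (v h) (v o) := by
  simp only [fStrong, sat_all, sat_ex, sat_imp, sat_iff, sat_and, sat_mem, sat_fRel, sat_fSub,
    sat_fFunOn, sat_fBranch, push_zero, push_succ, IsStrongIn]

theorem sat_fSt : Sat fSt v ↔ StIn M := by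
  simp only [fSt, sat_all, sat_ex, sat_imp, sat_and, sat_fOmega, sat_fOmegaOne, sat_fCH,
    sat_fTree, sat_fKurepa, sat_fStrong, push_zero, push_succ, StIn]

end

end Pool.Agent.KSt
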