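import Pool.Agent.Lib.MP_d9d638_lc.KS.B.Br

/-!
# KS, module B.KT: a Kurepa tree name from a system with many branches
-/

set_option autoImplicit false

namespace Pool.Agent.KSt

open Pool.Agent.MPa4e7db Pool.Agent.Lib.SymModel Pool.Agent.StarRoth.BV

variable {P : Type 1} [Preorder P] {p q : P} {π : Om → Om → ℕ → ℕ → RO P}

/-- The node of level `γ` with the number `m`. -/
noncomputable def ndN (P : Type 1) [Preorder P] (γ : Om) (m : ℕ) : BName (RO P) :=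
  opair (ordN (RO P) γ) (natN m)

theorem nd_inj {γ γ' : Om} {m m' : ℕ} (h : p ∈ eqB (ndN P γ m) (ndN P γ' m')) :
    γ = γ' ∧ m = m' := by
  obtain ⟨h1, h2⟩ := Fr.opair_iff.1 h
  exact ⟨Fr.ord_inj h1, Fr.nat_inj h2⟩

/-- The tree of the system: the nodes with least numbers. -/
noncomputable def tT (π : Om → Om → ℕ → ℕ → RO P) : BName (RO P) :=
  smN (fun i : Om × ℕ => ndN P i.1 i.2) (fun i => π i.1 i.1 i.2 i.2)

open Classical in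
/-- The order of the tree of the system. -/
noncomputable def tL (π : Om → Om → ℕ → ℕ → RO P) : BName (RO P) :=
  smN (fun i : (Om × ℕ) × (Om × ℕ) => opair (ndN P i.1.1 i.1.2) (ndN P i.2.1 i.2.2))
    (fun i => if i.1.1 < i.2.1 then π i.1.1 i.2.1 i.2.2 i.1.2 ⊓ π i.2.1 i.2.1 i.2.2 i.2.2 else ⊥)

/-- The height function of the tree of the system. -/
noncomputable def tH (π : Om → Om → ℕ → ℕ → RO P) : BName (RO P) :=
  smN (fun i : Om × ℕ => opair (ndN P i.1 i.2) (ordN (RO P) i.1)) (fun i => π i.1 i.1 i.2 i.2)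

theorem tL_ex {s t : BName (RO P)} (h : p ∈ relB (tL π) s t) : ∃ r ≤ p, ∃ γ γ' m m', γ < γ' ∧
    r ∈ π γ γ' m' m ∧ r ∈ π γ' γ' m' m' ∧ r ∈ eqB s (ndN P γ m) ∧ r ∈ eqB t (ndN P γ' m') := by
  obtain ⟨r, hr, ⟨⟨γ, m⟩, ⟨γ', m'⟩⟩, h1, h2, h3⟩ := Fr.rel_sm_ex h
  by_cases hlt : γ < γ'
  · rw [if_pos hlt] at h1
    exact ⟨r, hr, γ, γ', m, m', hlt, h1.1, h1.2, h2, h3⟩
  · rw [if_neg hlt] at h1
    exact (RO.notMem_bot _ h1).elim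

theorem tL_mk {γ γ' : Om} {m m' : ℕ} {s t : BName (RO P)} (hγ : γ < γ') (h1 : p ∈ π γ γ' m' m)
    (h2 : p ∈ π γ' γ' m' m') (h3 : p ∈ eqB s (ndN P γ m)) (h4 : p ∈ eqB t (ndN P γ' m')) :
    p ∈ relB (tL π) s t := by
  refine Fr.rel_sm_mk (ι := (Om × ℕ) × (Om × ℕ)) ((γ, m), (γ', m')) ?_ h3 h4
  rw [if_pos hγ]
  exact ⟨h1, h2⟩

/-- The number of a node below is a least number. -/
theorem pi_self (HS : ∀ q, IsSys q π) {γ γ' : Om} {m m' : ℕ} (hγ : γ ≤ γ')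
    (h1 : p ∈ π γ γ' m' m) : p ∈ π γ γ m m := by
  refine Fr.dense fun r hr => ?_
  obtain ⟨s, hs, n, hn⟩ := (HS p).tot γ γ m le_rfl r hr
  have h2 := (HS p).coh γ γ γ' m' m n le_rfl hγ s (hs.trans hr) (Fr.down h1 (hs.trans hr)) hn
  have h3 := (HS p).uni γ γ' m' n m hγ s (hs.trans hr) h2 (Fr.down h1 (hs.trans hr))
  subst h3
  exact ⟨s, hs, hn⟩

theorem tH_ex {t α : BName (RO P)} (h : p ∈ relB (tH π) t α) : ∃ r ≤ p, ∃ γ m,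
    r ∈ π γ γ m m ∧ r ∈ eqB t (ndN P γ m) ∧ r ∈ eqB α (ordN _ γ) := by
  obtain ⟨r, hr, ⟨γ, m⟩, h1, h2, h3⟩ := Fr.rel_sm_ex h
  exact ⟨r, hr, γ, m, h1, h2, h3⟩

theorem tH_mk {γ : Om} {m : ℕ} {t α : BName (RO P)} (h1 : p ∈ π γ γ m m)
    (h2 : p ∈ eqB t (ndN P γ m)) (h3 : p ∈ eqB α (ordN _ γ)) : p ∈ relB (tH π) t α :=
  Fr.rel_sm_mk (ι := Om × ℕ) (γ, m) h1 h2 h3

theorem tT_mk {γ : Om} {m : ℕ} {t : BName (RO P)} (h1 : p ∈ π γ γ m m)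
    (h2 : p ∈ eqB t (ndN P γ m)) : p ∈ memB t (tT π) :=
  Fr.sm_mk (ι := Om × ℕ) (γ, m) h1 h2

/-- Nodes below the same node are comparable. -/
theorem pi_cmp (HS : ∀ q, IsSys q π) {γ₁ γ₂ γ : Om} {m₁ m₂ m : ℕ} (h12 : γ₁ ≤ γ₂) (h2 : γ₂ ≤ γ)
    (h3 : p ∈ π γ₁ γ m m₁) (h4 : p ∈ π γ₂ γ m m₂) : p ∈ π γ₁ γ₂ m₂ m₁ := by
  refine Fr.dense fun r hr => ?_
  obtain ⟨s, hs, n, hn⟩ := (HS p).tot γ₁ γ₂ m₂ h12 r hr
  have h5 := (HS p).coh γ₁ γ₂ γ m m₂ n h12 h2 s (hs.trans hr) (Fr.down h4 (hs.trans hr)) hn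
  have h6 := (HS p).uni γ₁ γ m n m₁ (h12.trans h2) s (hs.trans hr) h5 (Fr.down h3 (hs.trans hr))
  subst h6
  exact ⟨s, hs, hn⟩

theorem fTree_kt (HS : ∀ q, IsSys q π) (p : P) :
    FTree p (tT π) (tL π) (tH π) omegaN (kapN (RO P) Om) where
  nodes s t q hq h := by
    constructor
    · refine Fr.dense fun r hr => ?_
      obtain ⟨r1, hr1, γ, γ', m, m', hγ, h1, h2, h3, h4⟩ := tL_ex (Fr.down h hr)
      exact ⟨r1, hr1, tT_mk (pi_self HS hγ.le h1) h3⟩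
    · refine Fr.dense fun r hr => ?_
      obtain ⟨r1, hr1, γ, γ', m, m', hγ, h1, h2, h3, h4⟩ := tL_ex (Fr.down h hr)
      exact ⟨r1, hr1, tT_mk h2 h4⟩
  irr t q hq h := by
    obtain ⟨r1, hr1, γ, γ', m, m', hγ, h1, h2, h3, h4⟩ := tL_ex h
    have h5 := (nd_inj (Fr.trans (Fr.symm h3) h4)).1
    subst h5
    exact lt_irrefl _ hγ
  tra a b c q hq hab hbc := by
    refine Fr.dense fun r hr => ?_
    obtain ⟨r1, hr1, γ, γ', m, m', hγ, h1, h2, h3, h4⟩ := tL_ex (Fr.down hab hr)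
    obtain ⟨r2, hr2, δ, δ', n, n', hδ, h5, h6, h7, h8⟩ := tL_ex (Fr.down hbc (hr1.trans hr))
    obtain ⟨h9, h10⟩ := nd_inj (Fr.trans (Fr.symm (Fr.down h4 hr2)) h7)
    subst h9 h10
    exact ⟨r2, hr2.trans hr1, tL_mk (hγ.trans hδ) ((HS r2).coh γ γ' δ' n' m' m hγ.le hδ.le r2
      le_rfl h5 (Fr.down h1 hr2)) h6 (Fr.down h3 hr2) h8⟩
  cmp a b c q hq hac hbc := by
    obtain ⟨r1, hr1, γ, γ', m, m', hγ, h1, h2, h3, h4⟩ := tL_ex hac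
    obtain ⟨r2, hr2, δ, δ', n, n', hδ, h5, h6, h7, h8⟩ := tL_ex (Fr.down hbc hr1)
    obtain ⟨h9, h10⟩ := nd_inj (Fr.trans (Fr.symm (Fr.down h4 hr2)) h8)
    subst h9 h10
    refine ⟨r2, hr2.trans hr1, ?_⟩
    rcases lt_trichotomy γ δ with h | h | h
    · exact Or.inr (Or.inl (tL_mk h (pi_cmp HS h.le hδ.le (Fr.down h1 hr2) h5)
        (pi_self HS hδ.le h5) (Fr.down h3 hr2) h7))
    · subst h
      have h11 := (HS r2).uni γ γ' m' m n hγ.le r2 le_rfl (Fr.down h1 hr2) h5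
      subst h11
      exact Or.inl (Fr.trans (Fr.down h3 hr2) (Fr.symm h7))
    · exact Or.inr (Or.inr (tL_mk h (pi_cmp HS h.le hγ.le h5 (Fr.down h1 hr2))
        (pi_self HS hγ.le (Fr.down h1 hr2)) h7 (Fr.down h3 hr2)))
  fn := by
    refine Fr.into_iff.2 ⟨Fr.fun_sm ?_ ?_ ?_, ?_⟩
    · intro i q hq h
      exact tT_mk h (Fr.refl _ _)
    · intro x q hq hx
      exact Fr.sm_ex hx
    · rintro ⟨γ, m⟩ ⟨γ', m'⟩ q hq _ _ h
      obtain ⟨h9, _⟩ := nd_inj h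
      subst h9
      exact Fr.refl _ _
    · intro x y q hq hxy
      refine Fr.dense fun r hr => ?_
      obtain ⟨r1, hr1, γ, m, _, _, h3⟩ := tH_ex (Fr.down hxy hr)
      exact ⟨r1, hr1, Fr.kap_mk γ h3⟩
  lt s t α β q hq hst hs ht := by
    refine Fr.dense fun r hr => ?_
    obtain ⟨r1, hr1, γ, γ', m, m', hγ, h1, h2, h3, h4⟩ := tL_ex (Fr.down hst hr)
    obtain ⟨r2, hr2, δ, n, _, h5, h6⟩ := tH_ex (Fr.down hs (hr1.trans hr))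
    obtain ⟨r3, hr3, δ', n', _, h7, h8⟩ := tH_ex (Fr.down ht ((hr2.trans hr1).trans hr))
    obtain ⟨h9, _⟩ := nd_inj (Fr.trans (Fr.symm (Fr.down h3 hr2)) h5)
    obtain ⟨h10, _⟩ := nd_inj (Fr.trans (Fr.symm (Fr.down h4 (hr3.trans hr2))) h7)
    subst h9 h10
    exact ⟨r3, (hr3.trans hr2).trans hr1, Fr.mem_left (Fr.symm (Fr.down h6 hr3))
      (Fr.mem_right (Fr.symm h8) (Fr.ord_mem_ord.2 hγ))⟩
  pre t α β q hq ht hα := by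
    obtain ⟨r1, hr1, γ, m, h1, h2, h3⟩ := tH_ex ht
    obtain ⟨r2, hr2, δ, hδ, h4⟩ := Fr.ord_ex (Fr.mem_right h3 (Fr.down hα hr1))
    obtain ⟨r3, hr3, n, hn⟩ := (HS r2).tot δ γ m hδ.le r2 le_rfl
    exact ⟨r3, hr3.trans (hr2.trans hr1), ndN P δ n, tL_mk hδ hn
      (Fr.down h1 (hr3.trans hr2)) (Fr.refl _ _) (Fr.down h2 (hr3.trans hr2)),
      tH_mk (pi_self HS hδ.le hn) (Fr.refl _ _) (Fr.down h4 hr3)⟩
  lev α q hq hα := by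
    obtain ⟨r1, hr1, γ, h1⟩ := Fr.kap_ex hα
    obtain ⟨r2, hr2, n, hn⟩ := (HS r1).tot γ γ 0 le_rfl r1 le_rfl
    exact ⟨r2, hr2.trans hr1, ndN P γ n, tH_mk (pi_self HS le_rfl hn) (Fr.refl _ _)
      (Fr.down h1 hr2)⟩
  ctbl α q hq hα A hA := by
    refine ctbl_iff.2 fun q1 hq1 => ?_
    obtain ⟨r1, hr1, γ, h1⟩ := Fr.kap_ex (Fr.down hα hq1)
    have hr1q : r1 ≤ q := hr1.trans hq1
    refine ⟨r1, hr1, smN (fun m : ℕ => opair (ndN P γ m) (natN m)) (fun m => π γ γ m m),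
      Fr.inj_sm ?_ ?_ ?_ ?_ ?_⟩
    · intro m s hs h2
      exact (hA _ s (hs.trans hr1q)).2 (tH_mk h2 (Fr.refl _ _) (Fr.down h1 hs))
    · intro x s hs hx
      obtain ⟨s1, hs1, δ, m, h2, h3, h4⟩ := tH_ex ((hA x s (hs.trans hr1q)).1 hx)
      have h5 : δ = γ := Fr.ord_inj (Fr.trans (Fr.symm h4) (Fr.down h1 (hs1.trans hs)))
      subst h5
      exact ⟨s1, hs1, m, h2, h3⟩
    · intro m m' s hs _ _ h
      rw [(nd_inj h).2]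
      exact Fr.refl _ _
    · intro m s hs _
      exact Fr.omega_mk m (Fr.refl _ _)
    · intro m m' s hs _ _ h
      rw [Fr.nat_inj h]
      exact Fr.refl _ _

/-- Many branches for families indexed by `ω₁`. -/
def KurOm (π : Om → Om → ℕ → ℕ → RO P) : Prop :=
  ∀ (r : P) (b : Om → Om → ℕ → RO P), ∃ r' ≤ r, ∃ c, IsBr r' π c ∧
    ∀ i, ∀ s ≤ r', IsBr s π (b i) → ∃ t ≤ s, ∃ γ m, t ∈ c γ m ∧ t ∉ b i γ m

theorem fBr_kt (HS : ∀ q, IsSys q π) {c : Om → ℕ → RO P} (Hc : IsBr p π c) :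
    FBr p (BrN (ndN P) c) (tT π) (tL π) (tH π) (kapN (RO P) Om) := by
  have hself : ∀ γ m, ∀ r ≤ p, r ∈ c γ m → r ∈ π γ γ m m := by
    intro γ m r hr h1
    refine Fr.dense fun s hs => ?_
    obtain ⟨t, ht, n, hn⟩ := (HS s).tot γ γ m le_rfl s le_rfl
    have h2 := Hc.coh γ γ m n le_rfl t ((ht.trans hs).trans hr) (Fr.down h1 (ht.trans hs)) hn
    have h3 := Hc.nm.uni γ n m t ((ht.trans hs).trans hr) h2 (Fr.down h1 (ht.trans hs))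
    subst h3
    exact ⟨t, ht, hn⟩
  have hpi : ∀ γ γ' m m', γ ≤ γ' → ∀ r ≤ p, r ∈ c γ m → r ∈ c γ' m' → r ∈ π γ γ' m' m := by
    intro γ γ' m m' hγ r hr h1 h2
    refine Fr.dense fun s hs => ?_
    obtain ⟨t, ht, n, hn⟩ := (HS s).tot γ γ' m' hγ s le_rfl
    have h2 := Hc.coh γ γ' m' n hγ t ((ht.trans hs).trans hr) (Fr.down h2 (ht.trans hs)) hn
    have h3 := Hc.nm.uni γ n m t ((ht.trans hs).trans hr) h2 (Fr.down h1 (ht.trans hs))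
    subst h3
    exact ⟨t, ht, hn⟩
  refine ⟨?_, ?_, ?_, ?_⟩
  · intro t q hq h
    refine Fr.dense fun r hr => ?_
    obtain ⟨s, hs, ⟨γ, m⟩, h1, h2⟩ := Fr.sm_ex (Fr.down h hr)
    exact ⟨s, hs, tT_mk (hself γ m s (hs.trans (hr.trans hq)) h1) h2⟩
  · intro s t q hq h1 h2
    obtain ⟨r1, hr1, ⟨γ, m⟩, h3, h4⟩ := Fr.sm_ex h1
    obtain ⟨r2, hr2, ⟨γ', m'⟩, h5, h6⟩ := Fr.sm_ex (Fr.down h2 hr1)
    have hr2' : r2 ≤ p := (hr2.trans hr1).trans hq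
    refine ⟨r2, hr2.trans hr1, ?_⟩
    have h3' := Fr.down h3 hr2
    have h4' := Fr.down h4 hr2
    rcases lt_trichotomy γ γ' with h | h | h
    · exact Or.inr (Or.inl (tL_mk h (hpi γ γ' m m' h.le r2 hr2' h3' h5)
        (hself γ' m' r2 hr2' h5) h4' h6))
    · subst h
      have := Hc.nm.uni γ m m' r2 hr2' h3' h5
      subst this
      exact Or.inl (Fr.trans h4' (Fr.symm h6))
    · exact Or.inr (Or.inr (tL_mk h (hpi γ' γ m' m h.le r2 hr2' h5 h3')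
        (hself γ m r2 hr2' h3') h6 h4'))
  · intro s t q hq h1 h2
    refine Fr.dense fun r hr => ?_
    obtain ⟨r1, hr1, ⟨γ', m'⟩, h3, h4⟩ := Fr.sm_ex (Fr.down h1 hr)
    obtain ⟨r2, hr2, γ, δ', m, n', hγ, h5, h6, h7, h8⟩ := tL_ex (Fr.down h2 (hr1.trans hr))
    obtain ⟨h9, h10⟩ := nd_inj (Fr.trans (Fr.symm (Fr.down h4 hr2)) h8)
    subst h9 h10
    refine ⟨r2, hr2.trans hr1, Fr.sm_mk (ι := Om × ℕ) (γ, m) ?_ h7⟩
    exact Hc.coh γ γ' m' m hγ.le r2 ((hr2.trans hr1).trans (hr.trans hq)) (Fr.down h3 hr2) h5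
  · intro α q hq h
    obtain ⟨r1, hr1, γ, h1⟩ := Fr.kap_ex h
    obtain ⟨r2, hr2, m, hm⟩ := Hc.nm.tot γ r1 (hr1.trans hq)
    exact ⟨r2, hr2.trans hr1, ndN P γ m, mem_brN hm, tH_mk (hself γ m r2
      ((hr2.trans hr1).trans hq) hm) (Fr.refl _ _) (Fr.down h1 hr2)⟩

theorem mem_brN_nd {c : Om → ℕ → RO P} {γ : Om} {m : ℕ} :
    p ∈ memB (ndN P γ m) (BrN (ndN P) c) ↔ p ∈ c γ m := by
  constructor
  · intro h
    refine Fr.dense fun r hr => ?_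
    obtain ⟨s, hs, ⟨γ', m'⟩, h1, h2⟩ := Fr.sm_ex (Fr.down h hr)
    obtain ⟨h9, h10⟩ := nd_inj h2
    subst h9 h10
    exact ⟨s, hs, h1⟩
  · exact mem_brN

theorem fKur_kt (HS : ∀ q, IsSys q π) (HK : KurOm π) (p : P) :
    FKur p (tT π) (tL π) (tH π) (kapN (RO P) Om) := by
  intro q _ f hf hall
  have h1 : ∀ i : Om, ∃ y, q ∈ relB f (ordN _ i) y := fun i =>
    Fr.full (ext_relB_right f (ordN _ i)) (Fr.fun_total hf (Fr.kap_mk i (Fr.refl _ _)))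
  choose y hy using h1
  obtain ⟨r, hr, c, hc, h2⟩ := HK q (fun i γ m => memB (ndN P γ m) (y i))
  obtain ⟨r1, hr1, α, hα⟩ := hall (BrN (ndN P) c) r hr (fBr_kt HS hc)
  obtain ⟨r2, hr2, i, hi⟩ := Fr.kap_ex (Fr.fun_dom (Fr.down hf (hr1.trans hr)) hα)
  have hr2r : r2 ≤ r := hr2.trans hr1
  have h3 : r2 ∈ eqB (BrN (ndN P) c) (y i) := Fr.fun_unique (Fr.down hf (hr2r.trans hr))
    (Fr.rel_left hi (Fr.down hα hr2)) (Fr.down (hy i) (hr2r.trans hr))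
  have h4 : ∀ γ m, ∀ s ≤ r2, s ∈ c γ m ↔ s ∈ memB (ndN P γ m) (y i) := by
    intro γ m s hs
    rw [← mem_brN_nd (c := c)]
    exact ⟨fun h => Fr.mem_right (Fr.down h3 hs) h, fun h => Fr.mem_right (Fr.symm
      (Fr.down h3 hs)) h⟩
  obtain ⟨t, ht, γ, m, h5, h6⟩ := h2 i r2 hr2r ((hc.mono hr2r).congr h4)
  exact h6 ((h4 γ m t ht).1 h5)

end Pool.Agent.KSt
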