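import Pool.Agent.Lib.MP_d9d638_lc.KS.B.FFo

/-!
# KS, module B.Rl: names of relations and of subsets of `ω₁`
-/

set_option autoImplicit false

namespace Pool.Agent.KSt

open Pool.Agent.MPa4e7db Pool.Agent.Lib.SymModel Pool.Agent.StarRoth.BV

universe u

variable {P : Type u} [Preorder P] {p : P} {x y t : BName (RO P)}

namespace Fr

theorem rel_sm_ex {ι : Type} {X Y : ι → BName (RO P)} {a : ι → RO P}
    (h : p ∈ relB (smN (fun i => opair (X i) (Y i)) a) x y) :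
    ∃ q ≤ p, ∃ i, q ∈ a i ∧ q ∈ eqB x (X i) ∧ q ∈ eqB y (Y i) := by
  obtain ⟨q, hq, i, h1, h2⟩ := sm_ex (rel_iff.1 h)
  exact ⟨q, hq, i, h1, opair_iff.1 h2⟩

theorem rel_sm_mk {ι : Type} {X Y : ι → BName (RO P)} {a : ι → RO P} (i : ι) (h : p ∈ a i)
    (h1 : p ∈ eqB x (X i)) (h2 : p ∈ eqB y (Y i)) :
    p ∈ relB (smN (fun i => opair (X i) (Y i)) a) x y :=
  rel_iff.2 (sm_mk i h (opair_iff.2 ⟨h1, h2⟩))

theorem rel_mk_ex {ι : Type u} {X Y : ι → BName (RO P)} {a : ι → RO P}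
    (h : p ∈ relB (BName.mk ι (fun i => opair (X i) (Y i)) a) x y) :
    ∃ q ≤ p, ∃ i, q ∈ a i ∧ q ∈ eqB x (X i) ∧ q ∈ eqB y (Y i) := by
  obtain ⟨q, hq, i, h1, h2⟩ := mk_ex (rel_iff.1 h)
  exact ⟨q, hq, i, h1, opair_iff.1 h2⟩

theorem rel_mk_mk {ι : Type u} {X Y : ι → BName (RO P)} {a : ι → RO P} (i : ι) (h : p ∈ a i)
    (h1 : p ∈ eqB x (X i)) (h2 : p ∈ eqB y (Y i)) :
    p ∈ relB (BName.mk ι (fun i => opair (X i) (Y i)) a) x y :=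
  rel_iff.2 (mk_mk i h (opair_iff.2 ⟨h1, h2⟩))

/-- A relation name is a function on `d`. -/
theorem fun_sm {ι : Type} {X Y : ι → BName (RO P)} {a : ι → RO P} {d : BName (RO P)}
    (h1 : ∀ i, ∀ q ≤ p, q ∈ a i → q ∈ memB (X i) d)
    (h2 : ∀ x, ∀ q ≤ p, q ∈ memB x d → ∃ r ≤ q, ∃ i, r ∈ a i ∧ r ∈ eqB x (X i))
    (h3 : ∀ i j, ∀ q ≤ p, q ∈ a i → q ∈ a j → q ∈ eqB (X i) (X j) → q ∈ eqB (Y i) (Y j)) :
    p ∈ isFunOnB (smN (fun i => opair (X i) (Y i)) a) d := by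
  refine fun_intro ?_ ?_ ?_
  · intro z q hq hz
    obtain ⟨r, hr, i, h4, h5⟩ := sm_ex hz
    exact ⟨r, hr, X i, Y i, h1 i r (hr.trans hq) h4, h5⟩
  · intro x q hq hx
    obtain ⟨r, hr, i, h4, h5⟩ := h2 x q hq hx
    exact ⟨r, hr, Y i, rel_sm_mk i h4 h5 (refl _ _)⟩
  · intro x y y' q hq hy hy'
    refine dense fun q' hq' => ?_
    obtain ⟨r, hr, i, h4, h5, h6⟩ := rel_sm_ex (down hy hq')
    obtain ⟨s, hs, j, h7, h8, h9⟩ := rel_sm_ex (down hy' (hr.trans hq'))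
    refine ⟨s, hs.trans hr, ?_⟩
    exact trans (down h6 hs) (trans (h3 i j s (hs.trans (hr.trans (hq'.trans hq))) (down h4 hs) h7
      (trans (symm (down h5 hs)) h8)) (symm h9))

/-- A relation name (large index type) is a function on `d`. -/
theorem fun_mk {ι : Type u} {X Y : ι → BName (RO P)} {a : ι → RO P} {d : BName (RO P)}
    (h1 : ∀ i, ∀ q ≤ p, q ∈ a i → q ∈ memB (X i) d)
    (h2 : ∀ x, ∀ q ≤ p, q ∈ memB x d → ∃ r ≤ q, ∃ i, r ∈ a i ∧ r ∈ eqB x (X i))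
    (h3 : ∀ i j, ∀ q ≤ p, q ∈ a i → q ∈ a j → q ∈ eqB (X i) (X j) → q ∈ eqB (Y i) (Y j)) :
    p ∈ isFunOnB (BName.mk ι (fun i => opair (X i) (Y i)) a) d := by
  refine fun_intro ?_ ?_ ?_
  · intro z q hq hz
    obtain ⟨r, hr, i, h4, h5⟩ := mk_ex hz
    exact ⟨r, hr, X i, Y i, h1 i r (hr.trans hq) h4, h5⟩
  · intro x q hq hx
    obtain ⟨r, hr, i, h4, h5⟩ := h2 x q hq hx
    exact ⟨r, hr, Y i, rel_mk_mk i h4 h5 (refl _ _)⟩
  · intro x y y' q hq hy hy'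
    refine dense fun q' hq' => ?_
    obtain ⟨r, hr, i, h4, h5, h6⟩ := rel_mk_ex (down hy hq')
    obtain ⟨s, hs, j, h7, h8, h9⟩ := rel_mk_ex (down hy' (hr.trans hq'))
    refine ⟨s, hs.trans hr, ?_⟩
    exact trans (down h6 hs) (trans (h3 i j s (hs.trans (hr.trans (hq'.trans hq))) (down h4 hs) h7
      (trans (symm (down h5 hs)) h8)) (symm h9))

/-- An injection given by a relation name. -/
theorem inj_sm {ι : Type} {X Y : ι → BName (RO P)} {a : ι → RO P} {d k : BName (RO P)}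
    (h1 : ∀ i, ∀ q ≤ p, q ∈ a i → q ∈ memB (X i) d)
    (h2 : ∀ x, ∀ q ≤ p, q ∈ memB x d → ∃ r ≤ q, ∃ i, r ∈ a i ∧ r ∈ eqB x (X i))
    (h3 : ∀ i j, ∀ q ≤ p, q ∈ a i → q ∈ a j → q ∈ eqB (X i) (X j) → q ∈ eqB (Y i) (Y j))
    (h4 : ∀ i, ∀ q ≤ p, q ∈ a i → q ∈ memB (Y i) k)
    (h5 : ∀ i j, ∀ q ≤ p, q ∈ a i → q ∈ a j → q ∈ eqB (Y i) (Y j) → q ∈ eqB (X i) (X j)) :
    FInj p (smN (fun i => opair (X i) (Y i)) a) d k where
  fn := fun_sm h1 h2 h3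
  into x y q hq hy := by
    refine dense fun q' hq' => ?_
    obtain ⟨r, hr, i, h6, h7, h8⟩ := rel_sm_ex (down hy hq')
    exact ⟨r, hr, mem_left (symm h8) (h4 i r (hr.trans (hq'.trans hq)) h6)⟩
  inj x x' y q hq hy hy' := by
    refine dense fun q' hq' => ?_
    obtain ⟨r, hr, i, h6, h7, h8⟩ := rel_sm_ex (down hy hq')
    obtain ⟨s, hs, j, h9, h10, h11⟩ := rel_sm_ex (down hy' (hr.trans hq'))
    refine ⟨s, hs.trans hr, ?_⟩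
    exact trans (down h7 hs) (trans (h5 i j s (hs.trans (hr.trans (hq'.trans hq))) (down h6 hs) h9
      (trans (symm (down h8 hs)) h11)) (symm h10))

end Fr

/-! ### Subsets of `ω₁` -/

/-- The name of the set of the `ξ` with the values `Y ξ`. -/
noncomputable def subN (Y : Om → RO P) : BName (RO P) := smN (ordN (RO P)) Y

theorem mem_subN {Y : Om → RO P} {ξ : Om} : p ∈ memB (ordN (RO P) ξ) (subN Y) ↔ p ∈ Y ξ := by
  constructor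
  · intro h
    refine Fr.dense fun q hq => ?_
    obtain ⟨r, hr, ξ', h1, h2⟩ := Fr.sm_ex (Fr.down h hq)
    have := Fr.ord_inj h2
    subst this
    exact ⟨r, hr, h1⟩
  · intro h
    exact Fr.sm_mk ξ h (Fr.refl _ _)

theorem subN_sub (Y : Om → RO P) : p ∈ subB (subN Y) (kapN (RO P) Om) := by
  refine Fr.sub_iff.2 fun z q hq hz => Fr.dense fun q' hq' => ?_
  obtain ⟨r, hr, ξ, h1, h2⟩ := Fr.sm_ex (Fr.down hz hq')
  exact ⟨r, hr, Fr.kap_mk ξ h2⟩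

theorem subN_congr {Y Y' : Om → RO P} (h : ∀ ξ, ∀ q ≤ p, q ∈ Y ξ ↔ q ∈ Y' ξ) :
    p ∈ eqB (subN Y) (subN Y') := by
  refine Fr.ext ?_ ?_
  · intro z q hq hz
    refine Fr.dense fun q' hq' => ?_
    obtain ⟨r, hr, ξ, h1, h2⟩ := Fr.sm_ex (Fr.down hz hq')
    exact ⟨r, hr, Fr.sm_mk ξ ((h ξ r (hr.trans (hq'.trans hq))).1 h1) h2⟩
  · intro z q hq hz
    refine Fr.dense fun q' hq' => ?_
    obtain ⟨r, hr, ξ, h1, h2⟩ := Fr.sm_ex (Fr.down hz hq')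
    exact ⟨r, hr, Fr.sm_mk ξ ((h ξ r (hr.trans (hq'.trans hq))).2 h1) h2⟩

theorem eq_subN (h : p ∈ subB x (kapN (RO P) Om)) :
    p ∈ eqB x (subN fun ξ => memB (ordN (RO P) ξ) x) := by
  refine Fr.ext ?_ ?_
  · intro z q hq hz
    refine Fr.dense fun q' hq' => ?_
    obtain ⟨r, hr, ξ, h1⟩ := Fr.kap_ex (Fr.sub_mp (Fr.down h (hq'.trans hq)) (Fr.down hz hq'))
    exact ⟨r, hr, Fr.sm_mk ξ (Fr.mem_left h1 (Fr.down hz (hr.trans hq'))) h1⟩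
  · intro z q hq hz
    refine Fr.dense fun q' hq' => ?_
    obtain ⟨r, hr, ξ, h1, h2⟩ := Fr.sm_ex (Fr.down hz hq')
    exact ⟨r, hr, Fr.mem_left (Fr.symm h2) h1⟩

/-! ### Least indices -/

/-- If some `n` satisfies `A n` below `q`, there is a least such `n`. -/
theorem least_nat {A : ℕ → RO P} {q : P} (h : ∃ r ≤ q, ∃ n, r ∈ A n) :
    ∃ r ≤ q, ∃ n, r ∈ A n ∧ ∀ k < n, r ∈ (A k)ᶜ := by
  classical
  have h1 : ∃ n, ∃ r ≤ q, r ∈ A n := by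
    obtain ⟨r, hr, n, hn⟩ := h
    exact ⟨n, r, hr, hn⟩
  obtain ⟨r, hr, hn⟩ := Nat.find_spec h1
  refine ⟨r, hr, Nat.find h1, hn, fun k hk => RO.mem_compl.2 fun s hs hsk => ?_⟩
  exact Nat.find_min h1 hk ⟨s, hs.trans hr, hsk⟩

/-- If some `η` satisfies `A η` below `q`, there is a least such `η`. -/
theorem least_om {A : Om → RO P} {q : P} (h : ∃ r ≤ q, ∃ η, r ∈ A η) :
    ∃ r ≤ q, ∃ η, r ∈ A η ∧ ∀ κ < η, r ∈ (A κ)ᶜ := by
  classical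
  obtain ⟨r, hr, η, hη⟩ := h
  obtain ⟨m, hm, hmin⟩ := MP_d9d638_lc.Om.least (S := {η : Om | ∃ r ≤ q, r ∈ A η}) ⟨η, r, hr, hη⟩
  obtain ⟨s, hs, hsm⟩ := hm
  refine ⟨s, hs, m, hsm, fun k hk => RO.mem_compl.2 fun t ht htk => ?_⟩
  exact absurd (hmin k ⟨t, ht.trans hs, htk⟩) (not_le.2 hk)

end Pool.Agent.KSt
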