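import Pool.Agent.Lib.MP_a1c723_lc.BV.Internal
import Pool.Agent.Lib.MP_a4e7db_lc.Names

/-!
# KS, statement layer: the notions of the question inside a model of set theory

All notions below are *internal* to an arbitrary structure `(M, ∈)`: a type `M` with a binary
relation, written `x ∈ a` through an arbitrary instance of `Membership M M`. All quantifiers run
over the elements of `M`. The basic notions (`SubIn`, `IsOmegaIn`, `RelIn f x y`, meaning
`(x, y) ∈ f`, `IsFunOnIn`, `IsFunIntoIn`, `IsCtblIn`, `CardLeIn`, `IsOrdIn`) are those of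
`MP_a1c723_lc.BV.Internal`. The variable `w` stands for `ω`, `o` for `ω₁`.
-/

set_option autoImplicit false

namespace Pool.Agent.KSt

open Pool.Agent.StarRoth.BV

variable {M : Type} [Membership M M]

/-- `o = ω₁`: `o` is an uncountable ordinal all of whose elements are countable. -/
def IsOmegaOneIn (o w : M) : Prop :=
  IsOrdIn o ∧ ¬ IsCtblIn o w ∧ ∀ α : M, α ∈ o → IsCtblIn α w

/-- The continuum hypothesis: the set of all subsets of `ω` injects into `ω₁`. -/
def CHIn (w o : M) : Prop := ∀ c : M, (∀ x : M, x ∈ c ↔ SubIn x w) → CardLeIn c o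

/-- `(T, L)` is an `ω₁`-tree with height function `h`: `L` is a strict partial order on `T`, the
predecessors of a node are linearly ordered and `h` maps them one-to-one and strictly increasingly
onto the ordinal `h(t)` (so they are well-ordered, in type `h(t)`), all heights are countable
ordinals, and the level `α` is nonempty and countable for every `α < ω₁`. -/
def IsTreeIn (T L h w o : M) : Prop :=
  (∀ s t : M, RelIn L s t → s ∈ T ∧ t ∈ T) ∧
  (∀ t : M, ¬ RelIn L t t) ∧
  (∀ r s t : M, RelIn L r s ∧ RelIn L s t → RelIn L r t) ∧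
  (∀ r s t : M, RelIn L r t ∧ RelIn L s t → r = s ∨ (RelIn L r s ∨ RelIn L s r)) ∧
  IsFunIntoIn h T o ∧
  (∀ s t α β : M, RelIn L s t ∧ (RelIn h s α ∧ RelIn h t β) → α ∈ β) ∧
  (∀ t α β : M, RelIn h t β ∧ α ∈ β → ∃ s : M, RelIn L s t ∧ RelIn h s α) ∧
  ∀ α : M, α ∈ o → (∃ t : M, RelIn h t α) ∧
    ∀ A : M, (∀ t : M, t ∈ A ↔ RelIn h t α) → IsCtblIn A w

/-- `b` is a cofinal branch of the tree: a linearly ordered, downward closed subset that meets
every level. -/
def IsBranchIn (b T L h o : M) : Prop :=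
  SubIn b T ∧
  (∀ s t : M, s ∈ b ∧ t ∈ b → s = t ∨ (RelIn L s t ∨ RelIn L t s)) ∧
  (∀ s t : M, t ∈ b ∧ RelIn L s t → s ∈ b) ∧
  ∀ α : M, α ∈ o → ∃ t : M, t ∈ b ∧ RelIn h t α

/-- The tree has at least `ω₂` cofinal branches: no function with domain `ω₁` has all cofinal
branches among its values. -/
def IsKurepaIn (T L h o : M) : Prop :=
  ¬ ∃ f : M, IsFunOnIn f o ∧ ∀ b : M, IsBranchIn b T L h o → ∃ α : M, RelIn f α b

/-- The tree is strong: with `S` the set of all cofinal branches, there is a function `F` from `S`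
onto the set of all subsets of `ω₁` (that is, `2^{ω₁}`) which is continuous for the cone
topologies: for `F(b) = x` and `α < ω₁` there is a node `t ∈ b` such that `F(b') ∩ α = x ∩ α` for
all `b' ∈ S` with `t ∈ b'`. -/
def IsStrongIn (T L h o : M) : Prop :=
  ∃ S F : M, (∀ b : M, b ∈ S ↔ IsBranchIn b T L h o) ∧ IsFunOnIn F S ∧
    (∀ b x : M, RelIn F b x → SubIn x o) ∧
    (∀ x : M, SubIn x o → ∃ b : M, RelIn F b x) ∧
    ∀ b x α : M, RelIn F b x ∧ α ∈ o → ∃ t : M, t ∈ b ∧
      ∀ b' x' : M, RelIn F b' x' ∧ t ∈ b' → ∀ ξ : M, ξ ∈ α → (ξ ∈ x ↔ ξ ∈ x')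

/-- The statement: CH holds, there is a Kurepa tree, and every Kurepa tree is strong. -/
def StIn (M : Type) [Membership M M] : Prop :=
  ∃ w o : M, IsOmegaIn w ∧ (IsOmegaOneIn o w ∧ (CHIn w o ∧
    ((∃ T L h : M, IsTreeIn T L h w o ∧ IsKurepaIn T L h o) ∧
      ∀ T L h : M, IsTreeIn T L h w o ∧ IsKurepaIn T L h o → IsStrongIn T L h o)))

end Pool.Agent.KSt
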