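import Pool.Agent.Lib.MP_d9d638_lc.KS.B.Enum

/-!
# KS, module B.Sys: the system of an enumerated tree name
-/

set_option autoImplicit false

namespace Pool.Agent.KSt

open Pool.Agent.MPa4e7db Pool.Agent.Lib.SymModel Pool.Agent.StarRoth.BV

section

universe u

variable {P : Type u} [Preorder P] {p q : P} {T L h a b c : BName (RO P)}

/-- `a ≤ b` in the tree. -/
def leB (L a b : BName (RO P)) : RO P := eqB a b ⊔ relB L a b

theorem le_ex (H : p ∈ leB L a b) : ∃ r ≤ p, r ∈ eqB a b ∨ r ∈ relB L a b :=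
  RO.mem_sup.1 H p le_rfl

theorem le_of_eq (H : p ∈ eqB a b) : p ∈ leB L a b :=
  RO.mem_sup.2 fun r hr => ⟨r, le_rfl, Or.inl (Fr.down H hr)⟩

theorem le_of_lt (H : p ∈ relB L a b) : p ∈ leB L a b :=
  RO.mem_sup.2 fun r hr => ⟨r, le_rfl, Or.inr (Fr.down H hr)⟩

theorem le_congr {a' b' : BName (RO P)} (ha : p ∈ eqB a a') (hb : p ∈ eqB b b')
    (H : p ∈ leB L a b) : p ∈ leB L a' b' := by
  refine Fr.dense fun r hr => ?_
  obtain ⟨s, hs, h1 | h1⟩ := le_ex (Fr.down H hr)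
  · exact ⟨s, hs, le_of_eq (Fr.trans (Fr.symm (Fr.down ha (hs.trans hr)))
      (Fr.trans h1 (Fr.down hb (hs.trans hr))))⟩
  · exact ⟨s, hs, le_of_lt (Fr.rel_congr (Fr.refl _ _) (Fr.down ha (hs.trans hr))
      (Fr.down hb (hs.trans hr)) h1)⟩

variable (HT : FTree q T L h omegaN (kapN (RO P) Om))

include HT

theorem le_trans' (hq : p ≤ q) (h1 : p ∈ leB L a b) (h2 : p ∈ leB L b c) : p ∈ leB L a c := by
  refine Fr.dense fun r hr => ?_
  obtain ⟨s, hs, h3 | h3⟩ := le_ex (Fr.down h1 hr)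
  · exact ⟨s, hs, le_congr (Fr.symm h3) (Fr.refl _ _) (Fr.down h2 (hs.trans hr))⟩
  · obtain ⟨t, ht, h4 | h4⟩ := le_ex (Fr.down h2 (hs.trans hr))
    · exact ⟨t, ht.trans hs, le_congr (Fr.refl _ _) h4 (le_of_lt (Fr.down h3 ht))⟩
    · exact ⟨t, ht.trans hs, le_of_lt (HT.tra _ _ _ t ((ht.trans (hs.trans hr)).trans hq)
        (Fr.down h3 ht) h4)⟩

theorem lt_height {γ γ' : Om} (hq : p ≤ q) (h1 : p ∈ relB L a b)
    (ha : p ∈ relB h a (ordN _ γ)) (hb : p ∈ relB h b (ordN _ γ')) : γ < γ' :=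
  Fr.ord_mem_ord.1 (HT.lt a b _ _ p hq h1 ha hb)

theorem height_uni {γ γ' : Om} (hq : p ≤ q)
    (ha : p ∈ relB h a (ordN _ γ)) (hb : p ∈ relB h a (ordN _ γ')) : γ = γ' :=
  Fr.ord_inj (Fr.fun_unique (Fr.down (Fr.into_iff.1 HT.fn).1 hq) ha hb)

/-- Nodes below the same node are comparable, according to their heights. -/
theorem le_cmp {γ γ' : Om} (hq : p ≤ q) (h1 : p ∈ leB L a c) (h2 : p ∈ leB L b c)
    (ha : p ∈ relB h a (ordN _ γ)) (hb : p ∈ relB h b (ordN _ γ')) (hγ : γ ≤ γ') :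
    p ∈ leB L a b := by
  refine Fr.dense fun r hr => ?_
  have key : ∀ s ≤ r, s ∈ leB L b a → ∃ t ≤ s, t ∈ leB L a b := by
    intro s hs h3
    obtain ⟨t, ht, h4 | h4⟩ := le_ex h3
    · exact ⟨t, ht, le_of_eq (Fr.symm h4)⟩
    · exact absurd (lt_height HT ((ht.trans (hs.trans hr)).trans hq) h4
        (Fr.down hb (ht.trans (hs.trans hr))) (Fr.down ha (ht.trans (hs.trans hr))))
        (not_lt.2 hγ)
  obtain ⟨s, hs, h3 | h3⟩ := le_ex (Fr.down h1 hr)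
  · obtain ⟨t, ht, h4⟩ := key s hs (le_congr (Fr.refl _ _) (Fr.symm h3)
      (Fr.down h2 (hs.trans hr)))
    exact ⟨t, ht.trans hs, h4⟩
  · obtain ⟨t, ht, h4 | h4⟩ := le_ex (Fr.down h2 (hs.trans hr))
    · exact ⟨t, ht.trans hs, le_congr (Fr.refl _ _) (Fr.symm h4) (le_of_lt (Fr.down h3 ht))⟩
    · obtain ⟨t1, ht1, h5 | h5 | h5⟩ := HT.cmp a b c t ((ht.trans (hs.trans hr)).trans hq)
        (Fr.down h3 ht) h4
      · exact ⟨t1, ht1.trans (ht.trans hs), le_of_eq h5⟩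
      · exact ⟨t1, ht1.trans (ht.trans hs), le_of_lt h5⟩
      · obtain ⟨t2, ht2, h6⟩ := key t1 (ht1.trans (ht.trans hs)) (le_of_lt h5)
        exact ⟨t2, ht2.trans (ht1.trans (ht.trans hs)), h6⟩

/-- Comparable nodes of the same height are equal. -/
theorem le_same {γ : Om} (hq : p ≤ q) (h1 : p ∈ leB L a b)
    (ha : p ∈ relB h a (ordN _ γ)) (hb : p ∈ relB h b (ordN _ γ)) : p ∈ eqB a b := by
  refine Fr.dense fun r hr => ?_
  obtain ⟨s, hs, h3 | h3⟩ := le_ex (Fr.down h1 hr)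
  · exact ⟨s, hs, h3⟩
  · exact absurd (lt_height HT ((hs.trans hr).trans hq) h3 (Fr.down ha (hs.trans hr))
      (Fr.down hb (hs.trans hr))) (lt_irrefl _)

end

/-! ### The system -/

variable {P : Type 1} [Preorder P] {p q : P} {T L h a b c : BName (RO P)}
  {e : Om → ℕ → BName (RO P)}

/-- The system of the enumerated tree: the least number of the node of level `γ` below the node
number `m'` of level `γ'`. -/
noncomputable def piN (L : BName (RO P)) (e : Om → ℕ → BName (RO P)) :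
    Om → Om → ℕ → ℕ → RO P := fun γ γ' m' m =>
  leB L (e γ m) (e γ' m') ⊓ ⨅ k : {k : ℕ // k < m}, (leB L (e γ k.1) (e γ' m'))ᶜ

theorem mem_pi {γ γ' : Om} {m' m : ℕ} : p ∈ piN L e γ γ' m' m ↔
    p ∈ leB L (e γ m) (e γ' m') ∧ ∀ k < m, p ∈ (leB L (e γ k) (e γ' m'))ᶜ := by
  show p ∈ leB L (e γ m) (e γ' m') ⊓ ⨅ k : {k : ℕ // k < m}, (leB L (e γ k.1) (e γ' m'))ᶜ ↔ _
  rw [RO.mem_inf, RO.mem_iInf]
  exact ⟨fun h => ⟨h.1, fun κ hκ => h.2 ⟨κ, hκ⟩⟩, fun h => ⟨h.1, fun κ => h.2 κ.1 κ.2⟩⟩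

theorem pi_tot (H : ETree q T L h e) {γ γ' : Om} (m' : ℕ) (hγ : γ ≤ γ') (hp : p ≤ q) :
    ∃ r ≤ p, ∃ m, r ∈ piN L e γ γ' m' m := by
  have h1 : ∃ r ≤ p, ∃ m, r ∈ leB L (e γ m) (e γ' m') := by
    rcases lt_or_eq_of_le hγ with hlt | heq
    · obtain ⟨r, hr, s, hs1, hs2⟩ := H.tree.pre (e γ' m') (ordN _ γ) (ordN _ γ') p hp
        (Fr.down (H.lev γ' m') hp) (Fr.ord_mem_ord.2 hlt)
      obtain ⟨r', hr', n, hn⟩ := H.all s γ r (hr.trans hp) hs2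
      exact ⟨r', hr'.trans hr, n, le_congr hn (Fr.refl _ _) (le_of_lt (Fr.down hs1 hr'))⟩
    · subst heq
      exact ⟨p, le_rfl, m', le_of_eq (Fr.refl _ _)⟩
  obtain ⟨r, hr, m, h2, h3⟩ := least_nat h1
  exact ⟨r, hr, m, mem_pi.2 ⟨h2, h3⟩⟩

theorem isSys_pi (H : ETree q T L h e) : IsSys q (piN L e) where
  tot γ γ' m' hγ r hr := pi_tot H m' hγ hr
  uni γ γ' m' m n _ r hr h1 h2 := by
    obtain ⟨h3, h4⟩ := mem_pi.1 h1
    obtain ⟨h5, h6⟩ := mem_pi.1 h2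
    rcases lt_trichotomy m n with h | h | h
    · exact (Fr.compl_mp (h6 m h) h3).elim
    · exact h
    · exact (Fr.compl_mp (h4 n h) h5).elim
  coh γ γ' γ'' m'' m' m hγ hγ' r hr h1 h2 := by
    obtain ⟨h3, h4⟩ := mem_pi.1 h1
    obtain ⟨h5, h6⟩ := mem_pi.1 h2
    refine mem_pi.2 ⟨le_trans' H.tree hr h5 h3, fun k hk => RO.mem_compl.2 fun s hs h7 => ?_⟩
    exact Fr.compl_mp (Fr.down (h6 k hk) hs) (le_cmp H.tree (hs.trans hr) h7 (Fr.down h3 hs)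
      (Fr.down (H.lev γ k) (hs.trans hr)) (Fr.down (H.lev γ' m') (hs.trans hr)) hγ)

end Pool.Agent.KSt
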