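import Pool.Agent.Lib.MP_d9d638_lc.KS.B.Rl

/-!
# KS, module B.W1: `ω₁` is not collapsed by a countably closed forcing
-/

set_option autoImplicit false

namespace Pool.Agent.KSt

open Pool.Agent.MPa4e7db Pool.Agent.Lib.SymModel Pool.Agent.StarRoth.BV

universe u

variable {P : Type u} [Preorder P] {p : P} {x y t : BName (RO P)}

/-- Descending sequences of conditions have lower bounds. -/
def Clo (P : Type u) [Preorder P] : Prop :=
  ∀ s : ℕ → P, (∀ n, s (n + 1) ≤ s n) → ∃ q, ∀ n, q ≤ s n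

/-- A countable number of dense requirements can be met below any condition. -/
theorem Clo.seq (H : Clo P) {D : ℕ → Set P} (p : P) (hD : ∀ n, ∀ q ≤ p, ∃ r ≤ q, r ∈ D n) :
    ∃ q ≤ p, ∀ n, ∃ r, q ≤ r ∧ r ≤ p ∧ r ∈ D n := by
  classical
  choose f hf1 hf2 using hD
  let g : (n : ℕ) → {q : P // q ≤ p} := fun n => Nat.rec ⟨p, le_rfl⟩
    (fun k q => ⟨f k q.1 q.2, (hf1 k q.1 q.2).trans q.2⟩) n
  have hg : ∀ n, (g (n + 1)).1 = f n (g n).1 (g n).2 := fun n => rfl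
  obtain ⟨q, hq⟩ := H (fun n => (g n).1) fun n => by
    show (g (n + 1)).1 ≤ (g n).1
    rw [hg]
    exact hf1 n _ _
  refine ⟨q, hq 0, fun n => ⟨(g (n + 1)).1, hq (n + 1), (g (n + 1)).2, ?_⟩⟩
  rw [hg]
  exact hf2 n _ _

theorem trans_iff : p ∈ isTransB x ↔ ∀ y, ∀ q ≤ p, q ∈ memB y x → q ∈ subB y x := by
  unfold isTransB
  simp only [RO.mem_iInf, RO.mem_himp]

theorem ordN_trans (γ : Om) : p ∈ isTransB (ordN (RO P) γ) := by
  refine trans_iff.2 fun y q hq hy => Fr.sub_iff.2 fun z r hr hz => Fr.dense fun s hs => ?_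
  obtain ⟨s1, hs1, δ, hδ, h1⟩ := Fr.ord_ex (Fr.down hy (hs.trans hr))
  obtain ⟨s2, hs2, ε, hε, h2⟩ := Fr.ord_ex (Fr.mem_right h1 (Fr.down hz (hs1.trans hs)))
  exact ⟨s2, hs2.trans hs1, Fr.mem_left (Fr.symm h2) (Fr.ord_mem_ord.2 (hε.trans hδ))⟩

theorem trans_congr (h : p ∈ eqB x y) (hx : p ∈ isTransB x) : p ∈ isTransB y :=
  trans_iff.2 fun z q hq hz => Fr.sub_congr (Fr.refl _ _) (Fr.down h hq)
    (trans_iff.1 hx z q hq (Fr.mem_right (Fr.symm (Fr.down h hq)) hz))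

theorem kapN_ord : p ∈ isOrdB (kapN (RO P) Om) := by
  unfold isOrdB
  rw [RO.mem_inf]
  constructor
  · refine trans_iff.2 fun y q hq hy => Fr.sub_iff.2 fun z r hr hz => Fr.dense fun s hs => ?_
    obtain ⟨s1, hs1, δ, h1⟩ := Fr.kap_ex (Fr.down hy (hs.trans hr))
    obtain ⟨s2, hs2, ε, hε, h2⟩ := Fr.ord_ex (Fr.mem_right h1 (Fr.down hz (hs1.trans hs)))
    exact ⟨s2, hs2.trans hs1, Fr.kap_mk ε h2⟩
  · simp only [RO.mem_iInf, RO.mem_himp]
    intro y q hq hy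
    refine Fr.dense fun s hs => ?_
    obtain ⟨s1, hs1, δ, h1⟩ := Fr.kap_ex (Fr.down hy hs)
    exact ⟨s1, hs1, trans_congr (Fr.symm h1) (ordN_trans δ)⟩

theorem FInj.congr {f d d' k : BName (RO P)} (H : FInj p f d k) (h : p ∈ eqB d d') :
    FInj p f d' k where
  fn := by
    refine Fr.fun_intro ?_ ?_ ?_
    · intro z q hq hz
      have h1 := H.fn
      unfold isFunOnB at h1
      simp only [RO.mem_inf, RO.mem_iInf, RO.mem_himp, RO.mem_iSup] at h1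
      obtain ⟨r, hr, a, h2⟩ := h1.1.1 z q hq hz q le_rfl
      obtain ⟨r', hr', b, h3, h4⟩ := h2 r le_rfl
      rw [isOPairB_eq] at h4
      exact ⟨r', hr'.trans hr, a, b, Fr.mem_right (Fr.down h ((hr'.trans hr).trans hq)) h3, h4⟩
    · intro a q hq ha
      have h1 := Fr.fun_total (Fr.down H.fn hq) (Fr.mem_right (Fr.symm (Fr.down h hq)) ha)
      obtain ⟨r, hr, b, hb⟩ := Fr.iSup_ex h1
      exact ⟨r, hr, b, hb⟩
    · intro a b b' q hq h1 h2
      exact Fr.fun_unique (Fr.down H.fn hq) h1 h2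
  into := H.into
  inj := H.inj

theorem ordN_ctbl (γ : Om) : ∃ f, ∀ p : P, FInj p f (ordN (RO P) γ) omegaN := by
  obtain ⟨c, hc⟩ := Set.countable_iff_exists_injOn.1 (MP_d9d638_lc.Om.iio γ)
  refine ⟨smN (ι := {η : Om // η < γ}) (fun i => opair (ordN (RO P) i.1) (natN (c i.1)))
    (fun _ => ⊤), fun p => Fr.inj_sm ?_ ?_ ?_ ?_ ?_⟩
  · intro i q hq _
    exact Fr.ord_mem_ord.2 i.2
  · intro x q hq hx
    obtain ⟨r, hr, η, hη, h1⟩ := Fr.ord_ex hx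
    exact ⟨r, hr, ⟨η, hη⟩, RO.mem_top r, h1⟩
  · intro i j q hq _ _ h
    rw [Fr.ord_inj h]
    exact Fr.refl _ _
  · intro i q hq _
    exact Fr.omega_mk _ (Fr.refl _ _)
  · intro i j q hq _ _ h
    have h1 : i.1 = j.1 := hc i.2 j.2 (Fr.nat_inj h)
    rw [h1]
    exact Fr.refl _ _

/-- The function `f` from `ω₁` into `ω` is not injective: in a descending sequence of conditions
one decides, for every `n`, an ordinal `η n` with `f(η n) = n`, or that there is none. -/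
theorem not_inj (H : Clo P) (f : BName (RO P)) (q : P) :
    ¬ FInj q f (kapN (RO P) Om) omegaN := by
  intro hf
  let D : ℕ → Set P := fun n => {r | (∃ η : Om, r ∈ relB f (ordN _ η) (natN n)) ∨
    ∀ η : Om, r ∈ (relB f (ordN _ η) (natN n))ᶜ}
  obtain ⟨q₁, hq₁, h1⟩ := H.seq (D := D) q fun n r hr => by
    by_cases h : ∃ s ≤ r, ∃ η : Om, s ∈ relB f (ordN _ η) (natN n)
    · obtain ⟨s, hs, η, h⟩ := h
      exact ⟨s, hs, Or.inl ⟨η, h⟩⟩
    · push Not at h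
      exact ⟨r, le_rfl, Or.inr fun η => RO.mem_compl.2 fun s hs => h s hs η⟩
  have h2 : ∀ n, ∃ ξ : Om, ∀ η : Om, ∀ s ≤ q₁, s ∈ relB f (ordN _ η) (natN n) → η = ξ := by
    intro n
    obtain ⟨r, hr, hr2, hD | hD⟩ := h1 n
    · obtain ⟨ξ, hξ⟩ := hD
      exact ⟨ξ, fun η s hs h => Fr.ord_inj (hf.inj _ _ _ s (hs.trans hq₁) h
        (Fr.down hξ (hs.trans hr)))⟩
    · obtain ⟨ξ⟩ : Nonempty Om := inferInstance
      exact ⟨ξ, fun η s hs h => (Fr.compl_mp (Fr.down (hD η) (hs.trans hr)) h).elim⟩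
  choose ξ hξ using h2
  obtain ⟨u, hu⟩ := MP_d9d638_lc.Om.bdd ξ
  obtain ⟨r, hr, y, hy⟩ := Fr.iSup_ex (Fr.fun_total (Fr.down hf.fn hq₁)
    (x := ordN _ u) (Fr.kap_mk u (Fr.refl _ _)))
  obtain ⟨s, hs, n, hn⟩ := Fr.omega_ex (hf.into _ _ r (hr.trans hq₁) hy)
  have h3 := hξ n u s (hs.trans hr) (Fr.rel_right hn (Fr.down hy hs))
  exact absurd (hu n) (by rw [h3]; exact lt_irrefl _)

theorem fOm1 (H : Clo P) (p : P) : FOm1 p (kapN (RO P) Om) omegaN where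
  ord := kapN_ord
  unc q _ f := not_inj H f q
  ctbl α q hq h := by
    refine Fr.dense fun r hr => ?_
    obtain ⟨s, hs, γ, hγ⟩ := Fr.kap_ex (Fr.down h hr)
    obtain ⟨f, hf⟩ := ordN_ctbl (P := P) γ
    exact ⟨s, hs, ctbl_iff.2 fun t ht => ⟨t, le_rfl, f,
      (hf t).congr (Fr.symm (Fr.down hγ ht))⟩⟩

end Pool.Agent.KSt
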